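import Mathlib

/-!
# Odd Jucys-Murphy elements: definitions and commutation

The point `2 i + 1` of `{1, ..., 2 n}` is written `(i, false)` and the point `2 i + 2` is
written `(i, true)`, for `i : Fin n`.
-/

set_option autoImplicit false

open scoped BigOperators IsMulCommutative

namespace Pool.Agent.Helper156.OddJM

/-- The points `1, ..., 2 n`; `(i, false)` stands for `2 i + 1`, `(i, true)` for `2 i + 2`. -/
abbrev Pt (n : ℕ) := Fin n × Bool

/-- The complex group algebra of the symmetric group on the `2 n` points. -/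
abbrev GA (n : ℕ) := MonoidAlgebra ℂ (Equiv.Perm (Pt n))

/-- The permutation `(1 2)(3 4) ... (2n-1 2n)`. -/
def tau (n : ℕ) : Equiv.Perm (Pt n) := Equiv.prodCongr (Equiv.refl _) Equiv.boolNot

/-- The hyperoctahedral group: the centraliser of `(1 2)(3 4) ... (2n-1 2n)`. -/
def hyp (n : ℕ) : Subgroup (Equiv.Perm (Pt n)) := Subgroup.centralizer {tau n}

open Classical in
/-- `P_n`, the sum of the elements of the hyperoctahedral group. -/
noncomputable def P (n : ℕ) : GA n :=
  ∑ h ∈ Finset.univ.filter (fun h => h ∈ hyp n), MonoidAlgebra.single h 1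

/-- The odd Jucys-Murphy element `J_{2k+1}`: the sum of the transpositions `(x, 2k+1)` over all
points `x` smaller than `2k+1`. -/
noncomputable def J {n : ℕ} (k : Fin n) : GA n :=
  ∑ x ∈ Finset.univ.filter (fun x : Pt n => x.1 < k),
    MonoidAlgebra.single (Equiv.swap x (k, false)) 1

/-- The Hecke algebra: the coefficient function is constant on double cosets. -/
def hecke (n : ℕ) : Submodule ℂ (GA n) where
  carrier := {x | ∀ g, ∀ h ∈ hyp n, ∀ k ∈ hyp n, x.coeff (h * g * k) = x.coeff g}
  zero_mem' := by intro g h _ k _; simp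
  add_mem' := by
    intro x y hx hy g h hh k hk
    rw [MonoidAlgebra.coeff_add, Finsupp.add_apply, Finsupp.add_apply, hx g h hh k hk,
      hy g h hh k hk]
  smul_mem' := by
    intro c x hx g h hh k hk
    rw [MonoidAlgebra.coeff_smul, Finsupp.smul_apply, Finsupp.smul_apply, hx g h hh k hk]

theorem mem_hecke {n : ℕ} {x : GA n} :
    x ∈ hecke n ↔ ∀ g, ∀ h ∈ hyp n, ∀ k ∈ hyp n, x.coeff (h * g * k) = x.coeff g := Iff.rfl

@[simp] theorem tau_apply {n : ℕ} (x : Pt n) : tau n x = (x.1, !x.2) := rfl

theorem tau_tau {n : ℕ} : tau n * tau n = 1 := by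
  ext x <;> simp

theorem mem_hyp {n : ℕ} {h : Equiv.Perm (Pt n)} : h ∈ hyp n ↔ ∀ x, h (tau n x) = tau n (h x) := by
  unfold hyp
  rw [Subgroup.mem_centralizer_iff]
  constructor
  · intro hh x
    have := hh (tau n) rfl
    have h2 := congrArg (fun f : Equiv.Perm (Pt n) => f x) this
    simpa using h2.symm
  · rintro hh g rfl
    apply Equiv.ext
    intro x
    exact (hh x).symm

/-! ### Commutation -/

theorem single_comm_J {n : ℕ} (k : Fin n) (g : Equiv.Perm (Pt n))
    (hg : ∀ x : Pt n, k ≤ x.1 → g x = x) :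
    MonoidAlgebra.single g 1 * J k = J k * MonoidAlgebra.single g (1 : ℂ) := by
  unfold J
  rw [Finset.mul_sum, Finset.sum_mul]
  have hlt : ∀ x : Pt n, x.1 < k → (g x).1 < k := by
    intro x hx
    by_contra hcon
    have h1 := hg (g x) (not_lt.1 hcon)
    have h2 := g.injective h1
    rw [h2] at hcon
    exact hcon hx
  refine Finset.sum_bij' (fun x _ => g x) (fun x _ => g.symm x) ?_ ?_ ?_ ?_ ?_
  · intro x hx
    simp only [Finset.mem_filter, Finset.mem_univ, true_and] at hx ⊢
    exact hlt x hx
  · intro x hx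
    simp only [Finset.mem_filter, Finset.mem_univ, true_and] at hx ⊢
    by_contra hcon
    have h1 := hg (g.symm x) (not_lt.1 hcon)
    rw [Equiv.apply_symm_apply] at h1
    rw [← h1] at hcon
    exact hcon hx
  · intro x _
    exact g.symm_apply_apply x
  · intro x _
    exact g.apply_symm_apply x
  · intro x _
    rw [MonoidAlgebra.single_mul_single, MonoidAlgebra.single_mul_single]
    congr 1
    have := Equiv.mul_swap_eq_swap_mul g x (k, false)
    rw [this, hg (k, false) le_rfl]

theorem J_comm_of_lt {n : ℕ} {a b : Fin n} (h : a < b) : Commute (J a) (J b) := by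
  show J a * J b = J b * J a
  conv_lhs => rw [show J a = ∑ x ∈ Finset.univ.filter (fun x : Pt n => x.1 < a),
    MonoidAlgebra.single (Equiv.swap x (a, false)) (1 : ℂ) from rfl]
  conv_rhs => rw [show J a = ∑ x ∈ Finset.univ.filter (fun x : Pt n => x.1 < a),
    MonoidAlgebra.single (Equiv.swap x (a, false)) (1 : ℂ) from rfl]
  rw [Finset.sum_mul, Finset.mul_sum]
  refine Finset.sum_congr rfl fun x hx => ?_
  simp only [Finset.mem_filter, Finset.mem_univ, true_and] at hx
  apply single_comm_J
  intro y hy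
  refine Equiv.swap_apply_of_ne_of_ne ?_ ?_
  · rintro rfl
    exact absurd (lt_trans hx h) (not_lt.2 hy)
  · rintro rfl
    exact absurd h (not_lt.2 hy)

theorem J_comm {n : ℕ} (a b : Fin n) : Commute (J a) (J b) := by
  rcases lt_trichotomy a b with h | h | h
  · exact J_comm_of_lt h
  · rw [h]
  · exact (J_comm_of_lt h).symm

/-! ### Evaluation of polynomials at the odd Jucys-Murphy elements -/

/-- The commutative algebra generated by the odd Jucys-Murphy elements. -/
noncomputable def jalg (n : ℕ) : Subalgebra ℂ (GA n) := Algebra.adjoin ℂ (Set.range (J (n := n)))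

instance (n : ℕ) : IsMulCommutative (jalg n) :=
  Algebra.isMulCommutative_adjoin ℂ (by
    rintro _ ⟨a, rfl⟩ _ ⟨b, rfl⟩
    exact (J_comm a b).eq)

/-- Evaluation of a polynomial in `n` variables at the commuting elements
`J_1, J_3, ..., J_{2n-1}`. -/
noncomputable def evalJ {n : ℕ} : MvPolynomial (Fin n) ℂ →ₐ[ℂ] GA n :=
  (jalg n).val.comp
    (MvPolynomial.aeval (fun k => (⟨J k, Algebra.subset_adjoin ⟨k, rfl⟩⟩ : jalg n)))

theorem evalJ_X {n : ℕ} (k : Fin n) : evalJ (MvPolynomial.X k) = J k := by
  simp [evalJ]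

end Pool.Agent.Helper156.OddJM
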