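import Pool.Agent.Helper156.OddJM.Basic

/-!
# The product of the elements `N + J` applied to `P_n`
-/

set_option autoImplicit false

open scoped BigOperators IsMulCommutative

namespace Pool.Agent.Helper156.OddJM

/-- The perfect matching attached to a permutation. -/
def mat {n : ℕ} (σ : Equiv.Perm (Pt n)) : Equiv.Perm (Pt n) := σ * tau n * σ⁻¹

/-- Functions on pairs that are constant along the matching of `σ`. -/
def Inv {n : ℕ} {α : Type*} (f : Fin n → α) (σ : Equiv.Perm (Pt n)) : Prop :=
  ∀ y, f (σ y).1 = f (σ (tau n y)).1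

theorem inv_iff {n : ℕ} {α : Type*} (f : Fin n → α) (σ : Equiv.Perm (Pt n)) :
    Inv f σ ↔ ∀ z, f z.1 = f (mat σ z).1 := by
  unfold Inv mat
  constructor
  · intro h z
    have := h (σ⁻¹ z)
    simpa [Equiv.Perm.mul_apply] using this
  · intro h y
    have := h (σ y)
    simpa [Equiv.Perm.mul_apply] using this

theorem mat_mat {n : ℕ} (σ : Equiv.Perm (Pt n)) (z : Pt n) : mat σ (mat σ z) = z := by
  unfold mat
  simp [Equiv.Perm.mul_apply]

theorem mat_ne {n : ℕ} (σ : Equiv.Perm (Pt n)) (z : Pt n) : mat σ z ≠ z := by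
  unfold mat
  intro h
  have h1 : tau n (σ⁻¹ z) = σ⁻¹ z := by
    rw [Equiv.Perm.mul_apply, Equiv.Perm.mul_apply] at h
    rw [Equiv.Perm.eq_inv_iff_eq]
    exact h
  rw [tau_apply] at h1
  have := congrArg Prod.snd h1
  simp at this

theorem mat_swap {n : ℕ} (σ : Equiv.Perm (Pt n)) (a b : Pt n) (z : Pt n) :
    mat (Equiv.swap a b * σ) z = Equiv.swap a b (mat σ (Equiv.swap a b z)) := by
  unfold mat
  simp [Equiv.Perm.mul_apply, mul_inv_rev]

/-- The matching of `σ` contains the pairs `{2i+1, 2i+2}` with `i ≥ r`. -/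
def Sg {n : ℕ} (r : ℕ) (σ : Equiv.Perm (Pt n)) : Prop :=
  ∀ i : Fin n, r ≤ i.val → mat σ (i, false) = (i, true)

theorem Sg.pair {n r : ℕ} {σ : Equiv.Perm (Pt n)} (h : Sg r σ) {z : Pt n} (hz : r ≤ z.1.val) :
    mat σ z = tau n z := by
  obtain ⟨i, b⟩ := z
  cases b
  · rw [h i hz]; rfl
  · have := h i hz
    rw [← this, mat_mat, this]; rfl

open Classical in
/-- The number of colourings with `N` colours of the pairs, constant along the matching. -/
noncomputable def wt {n : ℕ} (N : ℕ) (σ : Equiv.Perm (Pt n)) : ℕ :=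
  Fintype.card {f : Fin n → Fin N // Inv f σ}

open Classical in
/-- Weighted indicator function. -/
noncomputable def tf {n : ℕ} (N r : ℕ) (σ : Equiv.Perm (Pt n)) : ℂ :=
  if Sg r σ then (wt N σ : ℂ) else 0

/-- The corresponding element of the group algebra. -/
noncomputable def T {n : ℕ} (N r : ℕ) : GA n := ∑ σ, MonoidAlgebra.single σ (tf N r σ)

theorem coeff_T {n : ℕ} (N r : ℕ) (σ : Equiv.Perm (Pt n)) :
    (T N r : GA n).coeff σ = tf N r σ := by
  unfold T
  rw [MonoidAlgebra.coeff_sum, Finsupp.finsetSum_apply]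
  rw [Finset.sum_eq_single σ]
  · simp
  · intro b _ hb
    simp [hb]
  · intro h
    exact absurd (Finset.mem_univ _) h

theorem Sg_swap_lt {n : ℕ} {r : Fin n} {σ : Equiv.Perm (Pt n)} {x : Pt n} (hx : x.1 < r)
    {i : Fin n} (hi : r.val + 1 ≤ i.val) :
    mat (Equiv.swap x (r, false) * σ) (i, false) = (i, true) ↔ mat σ (i, false) = (i, true) := by
  rw [mat_swap]
  have h1 : ∀ b, Equiv.swap x (r, false) (i, b) = (i, b) := by
    intro b
    refine Equiv.swap_apply_of_ne_of_ne ?_ ?_
    · rintro rfl
      have : i.val < r.val := hx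
      omega
    · intro h
      have : i = r := congrArg Prod.fst h
      rw [this] at hi
      omega
  rw [h1]
  constructor
  · intro h
    have := congrArg (Equiv.swap x (r, false)) h
    rw [Equiv.swap_apply_self, h1] at this
    exact this
  · intro h
    rw [h, h1]

theorem wt_swap {n : ℕ} (N : ℕ) {r : Fin n} {ρ : Equiv.Perm (Pt n)} {y : Pt n}
    (hy : mat ρ (r, true) = y) (hyr : y.1 < r) :
    wt N (Equiv.swap y (r, false) * ρ) = N * wt N ρ := by
  classical
  have hmy : mat ρ y = (r, true) := by rw [← hy, mat_mat]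
  obtain ⟨u, hu⟩ : ∃ u, mat ρ (r, false) = u := ⟨_, rfl⟩
  have hmu : mat ρ u = (r, false) := by rw [← hu, mat_mat]
  have hyo : y ≠ (r, false) := by
    rintro rfl
    exact lt_irrefl _ hyr
  have hyo' : y ≠ (r, true) := by
    rintro rfl
    exact lt_irrefl _ hyr
  have huo : u ≠ (r, false) := by
    rw [← hu]; exact mat_ne _ _
  have huo' : u ≠ (r, true) := by
    intro h
    rw [h, hy] at hmu
    exact hyo hmu
  have huy : u ≠ y := by
    intro h
    rw [h, hmy] at hmu
    simp at hmu
  have hoo : ((r, false) : Pt n) ≠ (r, true) := by simp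
  have hur : u.1 ≠ r := by
    intro h
    obtain ⟨a, b⟩ := u
    cases b
    · exact huo (by rw [← h])
    · exact huo' (by rw [← h])
  -- the matching of the new permutation
  have key : ∀ z, mat (Equiv.swap y (r, false) * ρ) z =
      if z = (r, false) then (r, true) else if z = (r, true) then (r, false)
        else if z = y then u else if z = u then y else mat ρ z := by
    intro z
    rw [mat_swap]
    by_cases h1 : z = (r, false)
    · rw [if_pos h1, h1, Equiv.swap_apply_right, hmy,
        Equiv.swap_apply_of_ne_of_ne (Ne.symm hyo') (Ne.symm hoo)]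
    rw [if_neg h1]
    by_cases h2 : z = (r, true)
    · rw [if_pos h2, h2, Equiv.swap_apply_of_ne_of_ne (Ne.symm hyo') (Ne.symm hoo), hy,
        Equiv.swap_apply_left]
    rw [if_neg h2]
    by_cases h3 : z = y
    · rw [if_pos h3, h3, Equiv.swap_apply_left, hu, Equiv.swap_apply_of_ne_of_ne huy huo]
    rw [if_neg h3]
    by_cases h4 : z = u
    · rw [if_pos h4, h4, Equiv.swap_apply_of_ne_of_ne huy huo, hmu, Equiv.swap_apply_right]
    rw [if_neg h4, Equiv.swap_apply_of_ne_of_ne h3 h1]
    refine Equiv.swap_apply_of_ne_of_ne ?_ ?_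
    · intro h
      apply h2
      rw [← hmy, ← h, mat_mat]
    · intro h
      apply h4
      rw [← hu, ← h, mat_mat]
  have hrne : ∀ z : Pt n, z ≠ (r, false) → z ≠ (r, true) → z.1 ≠ r := by
    rintro ⟨a, b⟩ h1 h2 h
    cases b
    · exact h1 (by rw [← h])
    · exact h2 (by rw [← h])
  unfold wt
  have hcard : N * Fintype.card {f : Fin n → Fin N // Inv f ρ}
      = Fintype.card (Fin N × {f : Fin n → Fin N // Inv f ρ}) := by
    rw [Fintype.card_prod, Fintype.card_fin]
  rw [hcard]
  refine Fintype.card_congr
    { toFun := fun f => (f.1 r, ⟨Function.update f.1 r (f.1 y.1), ?_⟩)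
      invFun := fun g => ⟨Function.update g.2.1 r g.1, ?_⟩
      left_inv := ?_
      right_inv := ?_ }
  · -- forward
    obtain ⟨f, hf⟩ := f
    rw [inv_iff] at hf
    have hfu : f u.1 = f y.1 := by
      have := hf u
      rw [key, if_neg huo, if_neg huo', if_neg huy, if_pos rfl] at this
      exact this
    rw [inv_iff]
    intro z
    show Function.update f r (f y.1) z.1 = Function.update f r (f y.1) (mat ρ z).1
    by_cases h1 : z = (r, false)
    · rw [h1, hu, Function.update_self, Function.update_of_ne hur, hfu]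
    by_cases h2 : z = (r, true)
    · rw [h2, hy, Function.update_self, Function.update_of_ne (ne_of_lt hyr)]
    rw [Function.update_of_ne (hrne z h1 h2)]
    by_cases h3 : z = y
    · rw [h3, hmy, Function.update_self]
    by_cases h4 : z = u
    · rw [h4, hmu, Function.update_self, hfu]
    have h5 : mat ρ z ≠ (r, false) := by
      intro h
      apply h4
      rw [← hu, ← h, mat_mat]
    have h6 : mat ρ z ≠ (r, true) := by
      intro h
      apply h3
      rw [← hy, ← h, mat_mat]
    rw [Function.update_of_ne (hrne _ h5 h6)]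
    have := hf z
    rw [key, if_neg h1, if_neg h2, if_neg h3, if_neg h4] at this
    exact this
  · -- backward
    obtain ⟨c, g, hg⟩ := g
    rw [inv_iff] at hg
    rw [inv_iff]
    intro z
    show Function.update g r c z.1 = Function.update g r c
      (mat (Equiv.swap y (r, false) * ρ) z).1
    rw [key]
    by_cases h1 : z = (r, false)
    · rw [if_pos h1, h1]
    rw [if_neg h1]
    by_cases h2 : z = (r, true)
    · rw [if_pos h2, h2]
    rw [if_neg h2]
    have hgy : g y.1 = g r := by
      have := hg y
      rw [hmy] at this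
      exact this
    have hgu : g u.1 = g r := by
      have := hg u
      rw [hmu] at this
      exact this
    rw [Function.update_of_ne (hrne z h1 h2)]
    by_cases h3 : z = y
    · rw [if_pos h3, h3, Function.update_of_ne hur, hgy, hgu]
    rw [if_neg h3]
    by_cases h4 : z = u
    · rw [if_pos h4, h4, Function.update_of_ne (ne_of_lt hyr), hgy, hgu]
    rw [if_neg h4]
    have h5 : mat ρ z ≠ (r, false) := by
      intro h
      apply h4
      rw [← hu, ← h, mat_mat]
    have h6 : mat ρ z ≠ (r, true) := by
      intro h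
      apply h3
      rw [← hy, ← h, mat_mat]
    rw [Function.update_of_ne (hrne _ h5 h6)]
    exact hg z
  · intro f
    apply Subtype.ext
    show Function.update (Function.update f.1 r (f.1 y.1)) r (f.1 r) = f.1
    rw [Function.update_idem, Function.update_eq_self]
  · rintro ⟨c, g, hg⟩
    rw [inv_iff] at hg
    have hgy : g y.1 = g r := by
      have := hg y
      rw [hmy] at this
      exact this
    have hyr' : y.1 ≠ r := ne_of_lt hyr
    refine Prod.ext ?_ ?_
    · show Function.update g r c r = c
      rw [Function.update_self]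
    · apply Subtype.ext
      show Function.update (Function.update g r c) r (Function.update g r c y.1) = g
      rw [Function.update_of_ne hyr', Function.update_idem, hgy, Function.update_eq_self]

theorem Sg.mono {n r : ℕ} {σ : Equiv.Perm (Pt n)} (h : Sg r σ) : Sg (r + 1) σ :=
  fun i hi => h i (by omega)

theorem Sg_swap {n : ℕ} {r : Fin n} {ρ : Equiv.Perm (Pt n)} {x : Pt n} (hx : x.1 < r) :
    Sg r.val (Equiv.swap x (r, false) * ρ) ↔ (Sg (r.val + 1) ρ ∧ mat ρ (r, true) = x) := by
  have hxo' : x ≠ (r, true) := by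
    rintro rfl
    exact lt_irrefl _ hx
  have hoo : ((r, false) : Pt n) ≠ (r, true) := by simp
  have hr : mat (Equiv.swap x (r, false) * ρ) (r, false) = (r, true) ↔ mat ρ (r, true) = x := by
    rw [mat_swap, Equiv.swap_apply_right]
    constructor
    · intro h
      have := congrArg (Equiv.swap x (r, false)) h
      rw [Equiv.swap_apply_self, Equiv.swap_apply_of_ne_of_ne (Ne.symm hxo') (Ne.symm hoo)] at this
      rw [← this, mat_mat]
    · intro h
      rw [← h, mat_mat, Equiv.swap_apply_of_ne_of_ne (mat_ne _ _).symm (Ne.symm hoo)]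
  constructor
  · intro h
    refine ⟨fun i hi => (Sg_swap_lt hx hi).1 (h i (by omega)), hr.1 (h r le_rfl)⟩
  · rintro ⟨h1, h2⟩ i hi
    rcases Nat.eq_or_lt_of_le hi with h | h
    · have : i = r := Fin.ext h.symm
      rw [this]
      exact hr.2 h2
    · exact (Sg_swap_lt hx h).2 (h1 i h)

theorem tf_step {n : ℕ} (N : ℕ) (r : Fin n) (ρ : Equiv.Perm (Pt n)) :
    (N : ℂ) * tf N r.val ρ + ∑ x ∈ Finset.univ.filter (fun x : Pt n => x.1 < r),
      tf N r.val (Equiv.swap x (r, false) * ρ) = N * tf N (r.val + 1) ρ := by
  classical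
  by_cases hS : Sg (r.val + 1) ρ
  · obtain ⟨y, hy⟩ : ∃ y, mat ρ (r, true) = y := ⟨_, rfl⟩
    have hmy : mat ρ y = (r, true) := by rw [← hy, mat_mat]
    have hyle : y.1 ≤ r := by
      by_contra hcon
      have hlt : r.val + 1 ≤ y.1.val := by
        have := not_le.1 hcon
        exact this
      have := hS.pair hlt
      rw [hmy] at this
      have h2 := congrArg Prod.fst this
      simp only [tau_apply] at h2
      rw [← h2] at hlt
      simp at hlt
    rcases lt_or_eq_of_le hyle with hlt | heq
    · -- second case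
      have h1 : ¬ Sg r.val ρ := by
        intro h
        have := h r le_rfl
        have h2 := congrArg (mat ρ) this
        rw [mat_mat, hy] at h2
        rw [← h2] at hlt
        exact lt_irrefl _ hlt
      have h2 : tf N r.val ρ = 0 := by
        unfold tf
        rw [if_neg h1]
      rw [h2, mul_zero, zero_add, Finset.sum_eq_single y]
      · unfold tf
        rw [if_pos ((Sg_swap hlt).2 ⟨hS, hy⟩), if_pos hS, wt_swap N hy hlt]
        push_cast
        ring
      · intro x hx hxy
        simp only [Finset.mem_filter, Finset.mem_univ, true_and] at hx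
        unfold tf
        rw [if_neg]
        rw [Sg_swap hx]
        rintro ⟨_, h3⟩
        exact hxy (h3.symm.trans hy)
      · intro h
        exfalso
        apply h
        simp [hlt]
    · -- first case
      have hyo : y = (r, false) := by
        obtain ⟨a, b⟩ := y
        have ha : a = r := heq
        subst ha
        cases b
        · rfl
        · exact absurd hy (mat_ne _ _)
      have h1 : Sg r.val ρ := by
        intro i hi
        rcases Nat.eq_or_lt_of_le hi with h | h
        · have hir : i = r := Fin.ext h.symm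
          rw [hir, ← hyo, hmy]
        · exact hS i h
      rw [Finset.sum_eq_zero]
      · unfold tf
        rw [if_pos h1, if_pos hS, add_zero]
      · intro x hx
        simp only [Finset.mem_filter, Finset.mem_univ, true_and] at hx
        unfold tf
        rw [if_neg]
        rw [Sg_swap hx]
        rintro ⟨_, h3⟩
        rw [hy, hyo] at h3
        rw [← h3] at hx
        exact lt_irrefl _ hx
  · have h1 : ¬ Sg r.val ρ := fun h => hS h.mono
    rw [Finset.sum_eq_zero]
    · unfold tf
      rw [if_neg h1, if_neg hS]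
      ring
    · intro x hx
      simp only [Finset.mem_filter, Finset.mem_univ, true_and] at hx
      unfold tf
      rw [if_neg]
      rw [Sg_swap hx]
      rintro ⟨h3, _⟩
      exact hS h3

theorem T_step {n : ℕ} (N : ℕ) (r : Fin n) :
    ((N : GA n) + J r) * T N r.val = (N : ℂ) • T N (r.val + 1) := by
  apply MonoidAlgebra.ext
  apply Finsupp.ext
  intro ρ
  rw [MonoidAlgebra.coeff_smul, Finsupp.smul_apply, coeff_T, smul_eq_mul, ← tf_step, add_mul,
    MonoidAlgebra.coeff_add, Finsupp.add_apply]
  congr 1
  · rw [MonoidAlgebra.natCast_def, MonoidAlgebra.coeff_single_one_mul, coeff_T]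
  · unfold J
    rw [Finset.sum_mul, MonoidAlgebra.coeff_sum, Finsupp.finsetSum_apply]
    refine Finset.sum_congr rfl fun x _ => ?_
    rw [MonoidAlgebra.coeff_single_mul_apply, coeff_T, one_mul, Equiv.swap_inv]

theorem Sg_zero {n : ℕ} (σ : Equiv.Perm (Pt n)) : Sg 0 σ ↔ σ ∈ hyp n := by
  rw [mem_hyp]
  constructor
  · intro h x
    have := h.pair (z := σ x) (Nat.zero_le _)
    rw [← this]
    unfold mat
    simp [Equiv.Perm.mul_apply]
  · intro h i _
    unfold mat
    rw [Equiv.Perm.mul_apply, Equiv.Perm.mul_apply, h]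
    simp

theorem wt_hyp {n : ℕ} (N : ℕ) {σ : Equiv.Perm (Pt n)} (h : σ ∈ hyp n) : wt N σ = N ^ n := by
  classical
  rw [mem_hyp] at h
  unfold wt
  have hall : ∀ f : Fin n → Fin N, Inv f σ := by
    intro f y
    rw [h y]
    simp
  rw [Fintype.card_congr (Equiv.subtypeUnivEquiv hall)]
  simp

theorem T_zero {n : ℕ} (N : ℕ) : (T N 0 : GA n) = (N : ℂ) ^ n • P n := by
  classical
  apply MonoidAlgebra.ext
  apply Finsupp.ext
  intro ρ
  rw [coeff_T, MonoidAlgebra.coeff_smul, Finsupp.smul_apply, smul_eq_mul]
  unfold tf P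
  rw [MonoidAlgebra.coeff_sum, Finsupp.finsetSum_apply]
  by_cases h : ρ ∈ hyp n
  · rw [if_pos ((Sg_zero ρ).2 h), wt_hyp N h, Finset.sum_eq_single ρ]
    · simp
    · intro b _ hb
      simp [hb]
    · intro h2
      exfalso
      apply h2
      simp [h]
  · rw [if_neg (fun h2 => h ((Sg_zero ρ).1 h2)), Finset.sum_eq_zero]
    · simp
    · intro b hb
      simp only [Finset.mem_filter, Finset.mem_univ, true_and] at hb
      have : b ≠ ρ := by
        rintro rfl
        exact h hb
      simp [this]

end Pool.Agent.Helper156.OddJM
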