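import Mathlib

/-!
# A counting lemma for stars generating the cycles of a permutation
-/

set_option autoImplicit false

open scoped BigOperators

namespace Pool.Agent.Helper156.OddJM

/-- Extension by zero. -/
noncomputable def ext0 {n : ℕ} (S : Finset (Fin n)) : (S → ℚ) →ₗ[ℚ] (Fin n → ℚ) where
  toFun g x := if h : x ∈ S then g ⟨x, h⟩ else 0
  map_add' := by
    intro a b
    funext x
    by_cases h : x ∈ S <;> simp [h]
  map_smul' := by
    intro a b
    funext x
    by_cases h : x ∈ S <;> simp [h]

theorem ext0_mem {n : ℕ} {S : Finset (Fin n)} (g : S → ℚ) {x : Fin n} (h : x ∈ S) :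
    ext0 S g x = g ⟨x, h⟩ := by
  show (if h : x ∈ S then g ⟨x, h⟩ else 0) = _
  rw [dif_pos h]

theorem ext0_not_mem {n : ℕ} {S : Finset (Fin n)} (g : S → ℚ) {x : Fin n} (h : x ∉ S) :
    ext0 S g x = 0 := by
  show (if h : x ∈ S then g ⟨x, h⟩ else 0) = _
  rw [dif_neg h]

theorem sameCycle_const {n : ℕ} {π : Equiv.Perm (Fin n)} {f : Fin n → ℚ}
    (hf : ∀ x, f (π x) = f x) {x y : Fin n} (h : π.SameCycle x y) : f x = f y := by
  obtain ⟨k, rfl⟩ := h
  induction k using Int.induction_on with
  | zero => simp
  | succ i ih =>
    rw [ih, add_comm, zpow_add, zpow_one, Equiv.Perm.mul_apply, hf]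
  | pred i ih =>
    rw [ih]
    have : (π ^ (-(i : ℤ))) x = π ((π ^ (-(i : ℤ) - 1)) x) := by
      rw [← Equiv.Perm.mul_apply, ← zpow_one_add]
      congr 2
      ring
    rw [this, hf]

theorem core {n : ℕ} (π : Equiv.Perm (Fin n)) {s : ℕ} (o : Fin s → Fin n) (len : Fin s → ℕ)
    (e : (i : Fin s) → Fin (len i) → Fin n)
    (h : ∀ f : Fin n → ℚ, (∀ i j, f (e i j) = f (o i)) → ∀ x, f (π x) = f x) :
    π.support.card ≤ (∑ i, len i) + π.cycleType.card ∧
      ((∑ i, len i) + π.cycleType.card ≤ π.support.card → s ≤ π.cycleType.card →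
        π.cycleType = Finset.univ.val.map (fun i => len i + 1)) := by
  classical
  set cyc := π.cycleFactorsFinset with hcyc
  have hct : π.cycleType.card = cyc.card := by
    rw [Equiv.Perm.cycleType_def, Multiset.card_map]
    rfl
  have hex : ∀ c ∈ cyc, ∃ x, x ∈ c.support := fun c hc =>
    (Equiv.Perm.mem_cycleFactorsFinset_iff.1 hc).1.nonempty_support
  rcases isEmpty_or_nonempty (Fin n) with hemp | hnonemp
  · have hπ : π = 1 := Subsingleton.elim _ _
    have hs0 : IsEmpty (Fin s) := ⟨fun i => hemp.elim (o i)⟩
    subst hπ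
    refine ⟨by simp, fun _ _ => ?_⟩
    rw [Equiv.Perm.cycleType_one]
    have : (Finset.univ : Finset (Fin s)) = ∅ := Finset.univ_eq_empty
    rw [this]
    rfl
  choose! r hr using hex
  have hcy : ∀ c ∈ cyc, ∀ x ∈ c.support, c = π.cycleOf x := fun c hc x hx =>
    Equiv.Perm.cycle_is_cycleOf hx hc
  have hrinj : ∀ c ∈ cyc, ∀ c' ∈ cyc, r c = r c' → c = c' := by
    intro c hc c' hc' hrr
    rw [hcy c hc _ (hr c hc), hcy c' hc' _ (hr c' hc'), hrr]
  have hsub : ∀ c ∈ cyc, c.support ⊆ π.support := fun c hc =>
    Equiv.Perm.mem_cycleFactorsFinset_support_le hc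
  have hof : ∀ x ∈ π.support, π.cycleOf x ∈ cyc ∧ x ∈ (π.cycleOf x).support := by
    intro x hx
    refine ⟨Equiv.Perm.cycleOf_mem_cycleFactorsFinset_iff.2 hx, ?_⟩
    rw [Equiv.Perm.mem_support_cycleOf_iff]
    exact ⟨Equiv.Perm.SameCycle.refl _ _, hx⟩
  have hsame : ∀ c ∈ cyc, ∀ x ∈ c.support, ∀ y ∈ c.support, π.SameCycle x y := by
    intro c hc x hx y hy
    rw [hcy c hc x hx, Equiv.Perm.mem_support_cycleOf_iff] at hy
    exact hy.1
  set R := cyc.image r with hR
  have hRcard : R.card = cyc.card := Finset.card_image_of_injOn (fun c hc c' hc' => hrinj c hc c' hc')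
  have hRsub : R ⊆ π.support := by
    intro x hx
    rw [hR, Finset.mem_image] at hx
    obtain ⟨c, hc, rfl⟩ := hx
    exact hsub c hc (hr c hc)
  set S := π.support \ R with hS
  have hScard : S.card + cyc.card = π.support.card := by
    rw [hS, ← hRcard]
    exact Finset.card_sdiff_add_card_eq_card hRsub
  -- Claim A
  have claimA : ∀ g : S → ℚ, (∀ x, ext0 S g (π x) = ext0 S g x) → g = 0 := by
    intro g hg
    funext x
    obtain ⟨x, hx⟩ := x
    have hx2 : x ∈ π.support := (Finset.mem_sdiff.1 hx).1
    obtain ⟨h1, h2⟩ := hof x hx2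
    have h3 := hsame _ h1 x h2 _ (hr _ h1)
    have h4 := sameCycle_const hg h3
    rw [ext0_mem g hx, ext0_not_mem g] at h4
    · exact h4
    · intro h5
      apply (Finset.mem_sdiff.1 h5).2
      exact Finset.mem_image_of_mem r h1
  -- the linear map
  let E := Σ i : Fin s, Fin (len i)
  have hEcard : Fintype.card E = ∑ i, len i := by
    rw [Fintype.card_sigma]
    simp
  let Φ : (S → ℚ) →ₗ[ℚ] (E → ℚ) :=
    { toFun := fun g p => ext0 S g (e p.1 p.2) - ext0 S g (o p.1)
      map_add' := by
        intro a b
        funext p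
        simp only [map_add, Pi.add_apply]
        ring
      map_smul' := by
        intro a b
        funext p
        simp only [map_smul, Pi.smul_apply, smul_eq_mul, RingHom.id_apply]
        ring }
  have hΦ : ∀ g p, Φ g p = ext0 S g (e p.1 p.2) - ext0 S g (o p.1) := fun _ _ => rfl
  have hinj : Function.Injective Φ := by
    rw [← LinearMap.ker_eq_bot, LinearMap.ker_eq_bot']
    intro g hg
    apply claimA
    apply h
    intro i j
    have := congrFun hg ⟨i, j⟩
    rw [hΦ] at this
    exact sub_eq_zero.1 this
  have hle : S.card ≤ ∑ i, len i := by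
    have := LinearMap.finrank_le_finrank_of_injective hinj
    rw [Module.finrank_pi, Module.finrank_pi, Fintype.card_coe, hEcard] at this
    exact this
  refine ⟨by omega, fun hge hs => ?_⟩
  have heq : S.card = ∑ i, len i := by omega
  have hsurj : Function.Surjective Φ := by
    rw [← LinearMap.injective_iff_surjective_of_finrank_eq_finrank]
    · exact hinj
    · rw [Module.finrank_pi, Module.finrank_pi, Fintype.card_coe, hEcard, heq]
  -- invariant functions are constant along the edges
  have hback : ∀ v : Fin n → ℚ, (∀ x, v (π x) = v x) → ∀ i j, v (e i j) = v (o i) := by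
    intro v hv
    obtain ⟨g, hg⟩ := hsurj (fun p => v (e p.1 p.2) - v (o p.1))
    have h1 : ∀ x, (v - ext0 S g) (π x) = (v - ext0 S g) x := by
      apply h
      intro i j
      have := congrFun hg ⟨i, j⟩
      rw [hΦ] at this
      simp only [Pi.sub_apply]
      linarith
    have h2 : g = 0 := by
      apply claimA
      intro x
      have := h1 x
      simp only [Pi.sub_apply] at this
      have hvx := hv x
      linarith
    intro i j
    have := congrFun hg ⟨i, j⟩
    rw [hΦ, h2, map_zero] at this
    simp only [Pi.zero_apply, sub_zero] at this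
    linarith
  have hcross : ∀ c ∈ cyc, ∀ i j, e i j ∈ c.support ↔ o i ∈ c.support := by
    intro c hc i j
    have h1 := hback (fun x => if x ∈ c.support then 1 else 0) ?_ i j
    · by_cases ha : e i j ∈ c.support <;> by_cases hb : o i ∈ c.support <;> simp [ha, hb] at h1 ⊢
    · intro x
      have h2 : π x ∈ c.support ↔ x ∈ c.support := by
        have hc' := Equiv.Perm.mem_cycleFactorsFinset_iff.1 hc
        constructor
        · intro hx
          by_contra hx2
          have hxs : π x ∈ π.support := hsub c hc hx
          have hxs2 : x ∈ π.support := by rwa [Equiv.Perm.apply_mem_support] at hxs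
          have h3 := hcy c hc _ hx
          have h4 : π.cycleOf (π x) = π.cycleOf x := by
            rw [Equiv.Perm.cycleOf_self_apply]
          apply hx2
          rw [h3, h4]
          exact (hof x hxs2).2
        · intro hx
          rw [← hc'.2 x hx]
          exact Equiv.Perm.apply_mem_support.2 hx
      simp only [h2]
  -- lower bound for the number of edges in a cycle
  have hlow : ∀ c ∈ cyc, c.support.card ≤
      (∑ i ∈ Finset.univ.filter (fun i => o i ∈ c.support), len i) + 1 := by
    intro c hc
    let Ec := Σ i : {i : Fin s // o i ∈ c.support}, Fin (len i.1)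
    have hEc : Fintype.card Ec = ∑ i ∈ Finset.univ.filter (fun i => o i ∈ c.support), len i := by
      rw [Fintype.card_sigma]
      simp only [Fintype.card_fin]
      exact (Finset.sum_subtype (Finset.univ.filter (fun i => o i ∈ c.support))
        (by simp) (fun i => len i)).symm
    let Ψ : (c.support → ℚ) →ₗ[ℚ] ((Ec → ℚ) × ℚ) :=
      { toFun := fun g => (fun p => ext0 c.support g (e p.1 p.2) - ext0 c.support g (o p.1),
          ext0 c.support g (r c))
        map_add' := by
          intro a b
          refine Prod.ext ?_ ?_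
          · funext p
            simp only [map_add, Pi.add_apply, Prod.mk_add_mk]
            ring
          · simp only [map_add, Pi.add_apply, Prod.mk_add_mk]
        map_smul' := by
          intro a b
          refine Prod.ext ?_ ?_
          · funext p
            simp only [map_smul, Pi.smul_apply, smul_eq_mul, RingHom.id_apply, Prod.smul_mk]
            ring
          · simp only [map_smul, Pi.smul_apply, smul_eq_mul, RingHom.id_apply, Prod.smul_mk] }
    have hΨinj : Function.Injective Ψ := by
      rw [← LinearMap.ker_eq_bot, LinearMap.ker_eq_bot']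
      intro g hg
      have hg1 := congrArg Prod.fst hg
      have hg2 : ext0 c.support g (r c) = 0 := congrArg Prod.snd hg
      have hinv : ∀ x, ext0 c.support g (π x) = ext0 c.support g x := by
        apply h
        intro i j
        by_cases ho : o i ∈ c.support
        · have : ext0 c.support g (e i j) - ext0 c.support g (o i) = 0 :=
            congrFun hg1 ⟨⟨i, ho⟩, j⟩
          exact sub_eq_zero.1 this
        · rw [ext0_not_mem g ho, ext0_not_mem g (fun hh => ho ((hcross c hc i j).1 hh))]
      funext x
      obtain ⟨x, hx⟩ := x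
      have h3 := hsame c hc x hx _ (hr c hc)
      have h4 := sameCycle_const hinv h3
      rw [hg2, ext0_mem g hx] at h4
      exact h4
    have := LinearMap.finrank_le_finrank_of_injective hΨinj
    rw [Module.finrank_prod, Module.finrank_pi, Module.finrank_pi, Fintype.card_coe,
      Module.finrank_self, hEc] at this
    exact this
  -- sums over the cycles
  have hdisj : ∀ c ∈ cyc, ∀ c' ∈ cyc, ∀ x, x ∈ c.support → x ∈ c'.support → c = c' := by
    intro c hc c' hc' x hx hx'
    rw [hcy c hc x hx, hcy c' hc' x hx']
  have hsum1 : ∑ c ∈ cyc, (∑ i ∈ Finset.univ.filter (fun i => o i ∈ c.support), len i)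
      ≤ ∑ i, len i := by
    rw [← Finset.sum_biUnion]
    · exact Finset.sum_le_sum_of_subset (Finset.subset_univ _)
    · intro c hc c' hc' hne
      rw [Function.onFun, Finset.disjoint_left]
      intro i hi hi'
      simp only [Finset.mem_filter, Finset.mem_univ, true_and] at hi hi'
      exact hne (hdisj c hc c' hc' _ hi hi')
  have hsum2 : ∑ c ∈ cyc, c.support.card = π.support.card := by
    have := Equiv.Perm.sum_cycleType π
    rw [Equiv.Perm.cycleType_def] at this
    exact this
  have hsum3 : ∑ c ∈ cyc, ((∑ i ∈ Finset.univ.filter (fun i => o i ∈ c.support), len i) + 1)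
      = ∑ c ∈ cyc, c.support.card := by
    apply le_antisymm
    · rw [Finset.sum_add_distrib, hsum2]
      simp only [Finset.sum_const, smul_eq_mul, mul_one]
      omega
    · exact Finset.sum_le_sum hlow
  have heach : ∀ c ∈ cyc, c.support.card =
      (∑ i ∈ Finset.univ.filter (fun i => o i ∈ c.support), len i) + 1 :=
    (Finset.sum_eq_sum_iff_of_le hlow).1 hsum3.symm
  have hpick : ∀ c ∈ cyc, ∃ i, o i ∈ c.support := by
    intro c hc
    by_contra hcon
    push Not at hcon
    have h1 := heach c hc
    rw [Finset.filter_false_of_mem (fun i _ => hcon i), Finset.sum_empty] at h1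
    have h2 := (Equiv.Perm.mem_cycleFactorsFinset_iff.1 hc).1.two_le_card_support
    omega
  rcases isEmpty_or_nonempty (Fin s) with hemp | hnonemp
  · have hcyc0 : cyc = ∅ := by
      rw [Finset.eq_empty_iff_forall_notMem]
      intro c hc
      obtain ⟨i, _⟩ := hpick c hc
      exact hemp.elim i
    rw [Equiv.Perm.cycleType_def, ← hcyc, hcyc0]
    have : (Finset.univ : Finset (Fin s)) = ∅ := Finset.univ_eq_empty
    rw [this]
    rfl
  choose! pk hpk using hpick
  have hpkinj : ∀ c ∈ cyc, ∀ c' ∈ cyc, pk c = pk c' → c = c' := by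
    intro c hc c' hc' hh
    have h1 := hpk c' hc'
    rw [← hh] at h1
    exact hdisj c hc c' hc' _ (hpk c hc) h1
  have himg : cyc.image pk = Finset.univ := by
    apply Finset.eq_univ_of_card
    rw [Finset.card_image_of_injOn (fun c hc c' hc' => hpkinj c hc c' hc'), Fintype.card_fin]
    apply le_antisymm _ (by omega)
    have := Finset.card_le_univ (cyc.image pk)
    rw [Finset.card_image_of_injOn (fun c hc c' hc' => hpkinj c hc c' hc'), Fintype.card_fin]
      at this
    exact this
  have hsing : ∀ c ∈ cyc, Finset.univ.filter (fun i => o i ∈ c.support) = {pk c} := by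
    intro c hc
    ext i
    simp only [Finset.mem_filter, Finset.mem_univ, true_and, Finset.mem_singleton]
    constructor
    · intro hi
      have hi2 : i ∈ cyc.image pk := by rw [himg]; exact Finset.mem_univ _
      rw [Finset.mem_image] at hi2
      obtain ⟨c', hc', rfl⟩ := hi2
      rw [hdisj c hc c' hc' _ hi (hpk c' hc')]
    · rintro rfl
      exact hpk c hc
  rw [Equiv.Perm.cycleType_def]
  refine Multiset.map_eq_map_of_bij_of_nodup _ _ cyc.nodup Finset.univ.nodup
    (fun c _ => pk c) (fun c _ => Finset.mem_univ (pk c)) hpkinj ?_ ?_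
  · intro i _
    have hi2 : i ∈ cyc.image pk := by rw [himg]; exact Finset.mem_univ _
    rw [Finset.mem_image] at hi2
    obtain ⟨c', hc', hh⟩ := hi2
    exact ⟨c', hc', hh⟩
  · intro c hc
    have h1 := heach c hc
    rw [hsing c hc, Finset.sum_singleton] at h1
    exact h1

end Pool.Agent.Helper156.OddJM
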