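import Pool.Agent.Helper156.OddJM.Coloring

/-!
# `F(J_1, J_3, ..., J_{2n-1}) P_n` lies in the Hecke algebra
-/

set_option autoImplicit false

open scoped BigOperators IsMulCommutative

namespace Pool.Agent.Helper156.OddJM

/-- The permutation of the pairs induced by an element of the hyperoctahedral group. -/
def down {n : ℕ} (h : Equiv.Perm (Pt n)) (hh : h ∈ hyp n) : Equiv.Perm (Fin n) where
  toFun i := (h (i, false)).1
  invFun i := (h⁻¹ (i, false)).1
  left_inv := by
    intro i
    have h' := mem_hyp.1 ((hyp n).inv_mem hh)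
    have key : ∀ z : Pt n, (h⁻¹ z).1 = (h⁻¹ (z.1, false)).1 := by
      rintro ⟨a, b⟩
      cases b
      · rfl
      · have := h' (a, false)
        simp only [tau_apply, Bool.not_false] at this
        rw [this]
    show (h⁻¹ ((h (i, false)).1, false)).1 = i
    rw [← key]
    simp
  right_inv := by
    intro i
    have h' := mem_hyp.1 hh
    have key : ∀ z : Pt n, (h z).1 = (h (z.1, false)).1 := by
      rintro ⟨a, b⟩
      cases b
      · rfl
      · have := h' (a, false)
        simp only [tau_apply, Bool.not_false] at this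
        rw [this]
    show (h ((h⁻¹ (i, false)).1, false)).1 = i
    rw [← key]
    simp

theorem down_fst {n : ℕ} (h : Equiv.Perm (Pt n)) (hh : h ∈ hyp n) (z : Pt n) :
    (h z).1 = down h hh z.1 := by
  have h' := mem_hyp.1 hh
  obtain ⟨a, b⟩ := z
  cases b
  · rfl
  · have := h' (a, false)
    simp only [tau_apply, Bool.not_false] at this
    rw [this]
    rfl

theorem wt_bi {n : ℕ} (N : ℕ) (σ h k : Equiv.Perm (Pt n)) (hh : h ∈ hyp n) (hk : k ∈ hyp n) :
    wt N (h * σ * k) = wt N σ := by
  classical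
  unfold wt
  have hk' := mem_hyp.1 hk
  have key : ∀ f : Fin n → Fin N, Inv f (h * σ * k) ↔ Inv (f ∘ down h hh) σ := by
    intro f
    unfold Inv
    constructor
    · intro H y
      have := H (k⁻¹ y)
      rw [Equiv.Perm.mul_apply, Equiv.Perm.mul_apply, Equiv.Perm.mul_apply,
        Equiv.Perm.mul_apply, hk', down_fst h hh, down_fst h hh] at this
      simpa using this
    · intro H y
      have := H (k y)
      rw [Equiv.Perm.mul_apply, Equiv.Perm.mul_apply, Equiv.Perm.mul_apply,
        Equiv.Perm.mul_apply, hk', down_fst h hh, down_fst h hh]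
      exact this
  refine Fintype.card_congr
    { toFun := fun f => ⟨f.1 ∘ down h hh, (key f.1).1 f.2⟩
      invFun := fun g => ⟨g.1 ∘ (down h hh).symm, ?_⟩
      left_inv := ?_
      right_inv := ?_ }
  · rw [key]
    have : (g.1 ∘ (down h hh).symm) ∘ down h hh = g.1 := by
      funext i
      simp
    rw [this]
    exact g.2
  · intro f
    apply Subtype.ext
    funext i
    simp
  · intro g
    apply Subtype.ext
    funext i
    simp

theorem T_mem {n : ℕ} (N : ℕ) : (T N n : GA n) ∈ hecke n := by
  rw [mem_hecke]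
  intro g h hh k hk
  rw [coeff_T, coeff_T]
  unfold tf
  have hS : ∀ σ : Equiv.Perm (Pt n), Sg n σ := fun σ i hi => absurd i.isLt (not_lt.2 hi)
  rw [if_pos (hS _), if_pos (hS _), wt_bi N g h k hh hk]

theorem T_eq {n : ℕ} (N : ℕ) (hN : N ≠ 0) (r : ℕ) (hr : r ≤ n) :
    (N : ℂ) ^ r • (T N r : GA n) = (N : ℂ) ^ n •
      (evalJ (∏ i ∈ Finset.univ.filter (fun i : Fin n => i.val < r),
        (MvPolynomial.C (N : ℂ) + MvPolynomial.X i)) * P n) := by
  induction r with
  | zero =>
    rw [T_zero]
    simp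
  | succ r ih =>
    have hlt : r < n := hr
    have ih' := ih (by omega)
    have hfil : Finset.univ.filter (fun i : Fin n => i.val < r + 1)
        = insert (⟨r, hlt⟩ : Fin n) (Finset.univ.filter (fun i : Fin n => i.val < r)) := by
      ext i
      simp only [Finset.mem_filter, Finset.mem_univ, true_and, Finset.mem_insert, Fin.ext_iff]
      omega
    have hnot : (⟨r, hlt⟩ : Fin n) ∉ Finset.univ.filter (fun i : Fin n => i.val < r) := by
      simp
    rw [hfil, Finset.prod_insert hnot, map_mul, map_add, evalJ_X, mul_assoc,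
      show MvPolynomial.C (N : ℂ) = ((N : MvPolynomial (Fin n) ℂ)) by simp, map_natCast]
    rw [show MvPolynomial.C (N : ℂ) = ((N : MvPolynomial (Fin n) ℂ)) by simp] at ih'
    rw [← mul_smul_comm, ← ih', mul_smul_comm]
    have hstep := T_step N (⟨r, hlt⟩ : Fin n)
    show _ = (N : ℂ) ^ r • (((N : GA n) + J ⟨r, hlt⟩) * T N r)
    rw [show (T N r : GA n) = T N (⟨r, hlt⟩ : Fin n).val from rfl, hstep, smul_smul, pow_succ]

theorem prod_mem {n : ℕ} (N : ℕ) (hN : N ≠ 0) :
    evalJ (∏ i : Fin n, (MvPolynomial.C (N : ℂ) + MvPolynomial.X i)) * P n ∈ hecke n := by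
  have h := T_eq (n := n) N hN n le_rfl
  have hfil : Finset.univ.filter (fun i : Fin n => i.val < n) = Finset.univ := by
    ext i
    simp
  rw [hfil] at h
  have hne : (N : ℂ) ^ n ≠ 0 := pow_ne_zero _ (Nat.cast_ne_zero.2 hN)
  have h2 := congrArg (fun z => ((N : ℂ) ^ n)⁻¹ • z) h
  simp only [smul_smul, inv_mul_cancel₀ hne, one_smul] at h2
  rw [← h2]
  exact T_mem N

/-! ### Bi-invariance -/

theorem card_hyp_ne {n : ℕ} : ∃ c : ℂ, c ≠ 0 ∧ ∀ x ∈ hecke n, P n * x = c • x := by
  classical
  refine ⟨((Finset.univ.filter (fun h => h ∈ hyp n)).card : ℂ), ?_, ?_⟩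
  · rw [Nat.cast_ne_zero, Finset.card_ne_zero]
    exact ⟨1, by simp [(hyp n).one_mem]⟩
  · intro x hx
    apply MonoidAlgebra.ext
    apply Finsupp.ext
    intro g
    unfold P
    rw [Finset.sum_mul, MonoidAlgebra.coeff_sum, Finsupp.finsetSum_apply,
      MonoidAlgebra.coeff_smul, Finsupp.smul_apply]
    rw [Finset.sum_congr rfl (g := fun _ => x.coeff g)]
    · rw [Finset.sum_const, nsmul_eq_mul, smul_eq_mul]
    · intro h hh
      simp only [Finset.mem_filter, Finset.mem_univ, true_and] at hh
      rw [MonoidAlgebra.coeff_single_mul_apply, one_mul]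
      have := hx g h⁻¹ ((hyp n).inv_mem hh) 1 (hyp n).one_mem
      rw [mul_one] at this
      exact this

theorem hecke_mul {n : ℕ} {x y : GA n} (hx : x ∈ hecke n) (hy : y ∈ hecke n) :
    x * y ∈ hecke n := by
  classical
  have hl : ∀ z ∈ hecke n, ∀ h ∈ hyp n, MonoidAlgebra.single h (1 : ℂ) * z = z := by
    intro z hz h hh
    apply MonoidAlgebra.ext
    apply Finsupp.ext
    intro g
    rw [MonoidAlgebra.coeff_single_mul_apply, one_mul]
    have := hz g h⁻¹ ((hyp n).inv_mem hh) 1 (hyp n).one_mem
    rw [mul_one] at this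
    exact this
  have hr : ∀ z ∈ hecke n, ∀ h ∈ hyp n, z * MonoidAlgebra.single h (1 : ℂ) = z := by
    intro z hz h hh
    apply MonoidAlgebra.ext
    apply Finsupp.ext
    intro g
    rw [MonoidAlgebra.coeff_mul_single_apply, mul_one]
    have := hz g 1 (hyp n).one_mem h⁻¹ ((hyp n).inv_mem hh)
    rw [one_mul] at this
    exact this
  rw [mem_hecke]
  intro g h hh k hk
  have e : MonoidAlgebra.single h⁻¹ (1 : ℂ) * (x * y) * MonoidAlgebra.single k⁻¹ (1 : ℂ)
      = x * y := by
    rw [← mul_assoc, hl x hx _ ((hyp n).inv_mem hh), mul_assoc, hr y hy _ ((hyp n).inv_mem hk)]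
  have e2 := congrArg (fun z : GA n => z.coeff g) e
  simp only [MonoidAlgebra.coeff_mul_single_apply, MonoidAlgebra.coeff_single_mul_apply,
    one_mul, mul_one, inv_inv] at e2
  rw [← e2, mul_assoc]

/-- The polynomials `F` for which `F(J) P` lies in the Hecke algebra form a subalgebra. -/
noncomputable def good (n : ℕ) : Subalgebra ℂ (MvPolynomial (Fin n) ℂ) where
  carrier := {F | evalJ F * P n ∈ hecke n}
  mul_mem' := by
    intro F G hF hG
    obtain ⟨c, hc, hc2⟩ := card_hyp_ne (n := n)
    have h1 : evalJ (F * G) * P n = c⁻¹ • ((evalJ F * P n) * (evalJ G * P n)) := by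
      rw [mul_assoc (evalJ F), hc2 _ hG, mul_smul_comm, smul_smul, inv_mul_cancel₀ hc, one_smul,
        map_mul, mul_assoc]
    show evalJ (F * G) * P n ∈ hecke n
    rw [h1]
    exact (hecke n).smul_mem _ (hecke_mul hF hG)
  add_mem' := by
    intro F G hF hG
    show evalJ (F + G) * P n ∈ hecke n
    rw [map_add, add_mul]
    exact (hecke n).add_mem hF hG
  algebraMap_mem' := by
    intro c
    show evalJ (algebraMap ℂ _ c) * P n ∈ hecke n
    rw [AlgHom.commutes, Algebra.algebraMap_eq_smul_one, smul_mul_assoc, one_mul]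
    apply (hecke n).smul_mem
    rw [mem_hecke]
    intro g h hh k hk
    have hT := T_mem (n := n) 1
    have : ∀ σ : Equiv.Perm (Pt n), (P n).coeff σ = tf 1 0 σ := by
      intro σ
      rw [← coeff_T, T_zero]
      simp
    rw [this, this]
    unfold tf
    have hiff : Sg 0 (h * g * k) ↔ Sg 0 g := by
      rw [Sg_zero, Sg_zero, Subgroup.mul_mem_cancel_right _ hk, Subgroup.mul_mem_cancel_left _ hh]
    by_cases hg : Sg 0 g
    · rw [if_pos hg, if_pos (hiff.2 hg), wt_bi 1 g h k hh hk]
    · rw [if_neg hg, if_neg (fun h2 => hg (hiff.1 h2))]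

theorem coeff_extract {V : Type*} [AddCommGroup V] [Module ℂ V] (S : Submodule ℂ V) (d : ℕ)
    (v : ℕ → V) (h : ∀ N : ℕ, N ≠ 0 → ∑ j ∈ Finset.range (d + 1), ((N : ℂ) ^ j) • v j ∈ S) :
    ∀ j ≤ d, v j ∈ S := by
  intro j hj
  rw [← Submodule.Quotient.mk_eq_zero S]
  rw [← Module.forall_dual_apply_eq_zero_iff ℂ]
  intro φ
  set p : Polynomial ℂ := ∑ i ∈ Finset.range (d + 1),
    Polynomial.C (φ (Submodule.Quotient.mk (v i))) * Polynomial.X ^ i with hp
  have hroot : ∀ N : ℕ, N ≠ 0 → p.IsRoot (N : ℂ) := by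
    intro N hN
    have h1 := h N hN
    rw [← Submodule.Quotient.mk_eq_zero S] at h1
    have h2 := congrArg φ h1
    rw [map_zero, ← Submodule.mkQ_apply, map_sum, map_sum] at h2
    rw [Polynomial.IsRoot.def, hp, Polynomial.eval_finsetSum, ← h2]
    refine Finset.sum_congr rfl fun i _ => ?_
    rw [Polynomial.eval_mul, Polynomial.eval_C, Polynomial.eval_pow, Polynomial.eval_X,
      map_smul, map_smul, smul_eq_mul, Submodule.mkQ_apply, mul_comm]
  have hp0 : p = 0 := by
    apply Polynomial.eq_zero_of_infinite_isRoot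
    refine Set.Infinite.mono (s := Set.range (fun N : ℕ => ((N + 1 : ℕ) : ℂ))) ?_ ?_
    · rintro _ ⟨N, rfl⟩
      exact hroot (N + 1) (Nat.succ_ne_zero N)
    · apply Set.infinite_range_of_injective
      intro a b hab
      simpa using hab
  have h3 : p.coeff j = φ (Submodule.Quotient.mk (v j)) := by
    rw [hp, Polynomial.finsetSum_coeff]
    simp only [Polynomial.coeff_C_mul, Polynomial.coeff_X_pow]
    rw [Finset.sum_eq_single j]
    · simp
    · intro b _ hb
      simp [Ne.symm hb]
    · intro h4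
      exfalso
      apply h4
      simp
      omega
  rw [← h3, hp0, Polynomial.coeff_zero]

theorem symm_good {n : ℕ} {F : MvPolynomial (Fin n) ℂ} (hF : F.IsSymmetric) :
    evalJ F * P n ∈ hecke n := by
  classical
  have hes : ∀ j ≤ n, MvPolynomial.esymm (Fin n) ℂ j ∈ good n := by
    have hv := coeff_extract (Subalgebra.toSubmodule (good n)) n
      (fun j => MvPolynomial.esymm (Fin n) ℂ (n - j)) ?_
    · intro j hj
      have := hv (n - j) (by omega)
      rw [show n - (n - j) = j by omega] at this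
      exact this
    · intro N hN
      have h1 : (∏ i : Fin n, (MvPolynomial.C (N : ℂ) + MvPolynomial.X i)) ∈ good n :=
        prod_mem N hN
      have h2 := MvPolynomial.prod_C_add_X_eq_sum_esymm ℂ (Fin n)
      have h3 := congrArg (Polynomial.eval (MvPolynomial.C (N : ℂ))) h2
      rw [Polynomial.eval_prod, Polynomial.eval_finsetSum] at h3
      simp only [Polynomial.eval_add, Polynomial.eval_X, Polynomial.eval_C,
        Polynomial.eval_mul, Polynomial.eval_pow, Fintype.card_fin] at h3
      have h4 : ∑ j ∈ Finset.range (n + 1), (N : ℂ) ^ j • MvPolynomial.esymm (Fin n) ℂ (n - j)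
          = ∏ i : Fin n, (MvPolynomial.C (N : ℂ) + MvPolynomial.X i) := by
        rw [h3, ← Finset.sum_range_reflect]
        refine Finset.sum_congr rfl fun j hj => ?_
        rw [Finset.mem_range] at hj
        rw [show n + 1 - 1 - j = n - j by omega, show n - (n - j) = j by omega,
          MvPolynomial.smul_eq_C_mul, map_pow, mul_comm]
      show _ ∈ good n
      rw [h4]
      exact h1
  obtain ⟨Q, hQ⟩ := MvPolynomial.esymmAlgHom_fin_surjective ℂ (m := n) (n := n) le_rfl ⟨F, hF⟩
  have hQ2 : MvPolynomial.aeval (fun i : Fin n => MvPolynomial.esymm (Fin n) ℂ (i + 1)) Q = F := by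
    rw [← MvPolynomial.esymmAlgHom_apply, hQ]
  have hF2 : F ∈ good n := by
    rw [← hQ2]
    have : ∀ Q : MvPolynomial (Fin n) ℂ,
        MvPolynomial.aeval (fun i : Fin n => MvPolynomial.esymm (Fin n) ℂ (i + 1)) Q ∈ good n := by
      intro Q
      induction Q using MvPolynomial.induction_on with
      | C a =>
        rw [MvPolynomial.aeval_C]
        exact (good n).algebraMap_mem a
      | add p q hp hq =>
        rw [map_add]
        exact (good n).add_mem hp hq
      | mul_X p i hp =>
        rw [map_mul, MvPolynomial.aeval_X]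
        exact (good n).mul_mem hp (hes _ (by omega))
    exact this Q
  exact hF2

end Pool.Agent.Helper156.OddJM
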