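import Pool.Agent.Helper156.OddJM.Triangular

/-!
# Positivity of the leading coefficient and the main theorem
-/

set_option autoImplicit false

open scoped BigOperators IsMulCommutative ComplexOrder

namespace Pool.Agent.Helper156.OddJM

/-- All coefficients are nonnegative and the one at `g` is not zero. -/
def PP {n : ℕ} (x : GA n) (g : Equiv.Perm (Pt n)) : Prop :=
  (∀ g', 0 ≤ x.coeff g') ∧ x.coeff g ≠ 0

theorem nonneg_mul {n : ℕ} {x y : GA n} (hx : ∀ g, 0 ≤ x.coeff g) (hy : ∀ g, 0 ≤ y.coeff g) :
    ∀ g, 0 ≤ (x * y).coeff g := by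
  intro g
  rw [MonoidAlgebra.coeff_mul_apply_left]
  exact Finset.sum_nonneg fun a _ => mul_nonneg (hx a) (hy _)

theorem PP.mul {n : ℕ} {x y : GA n} {a b : Equiv.Perm (Pt n)} (hx : PP x a) (hy : PP y b) :
    PP (x * y) (a * b) := by
  refine ⟨nonneg_mul hx.1 hy.1, ?_⟩
  rw [MonoidAlgebra.coeff_mul_apply_left]
  apply ne_of_gt
  refine Finset.sum_pos' (fun c _ => mul_nonneg (hx.1 c) (hy.1 _)) ⟨a, ?_, ?_⟩
  · exact Finsupp.mem_support_iff.2 hx.2
  · show 0 < x.coeff a * y.coeff (a⁻¹ * (a * b))
    rw [inv_mul_cancel_left]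
    exact mul_pos (lt_of_le_of_ne (hx.1 a) (Ne.symm hx.2)) (lt_of_le_of_ne (hy.1 b) (Ne.symm hy.2))

theorem PP.sum {n : ℕ} {ι : Type*} {s : Finset ι} {x : ι → GA n} {g : Equiv.Perm (Pt n)}
    (h : ∀ i ∈ s, ∀ g', 0 ≤ (x i).coeff g') {i : ι} (hi : i ∈ s) (hne : (x i).coeff g ≠ 0) :
    PP (∑ i ∈ s, x i) g := by
  have hc : ∀ g', (∑ i ∈ s, x i).coeff g' = ∑ i ∈ s, (x i).coeff g' := by
    intro g'
    rw [MonoidAlgebra.coeff_sum, Finsupp.finsetSum_apply]
  refine ⟨fun g' => ?_, ?_⟩
  · rw [hc]
    exact Finset.sum_nonneg fun i hi => h i hi g'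
  · rw [hc]
    apply ne_of_gt
    exact Finset.sum_pos' (fun i hi => h i hi g) ⟨i, hi, lt_of_le_of_ne (h i hi g) (Ne.symm hne)⟩

theorem single_nonneg' {n : ℕ} (a g : Equiv.Perm (Pt n)) :
    0 ≤ (MonoidAlgebra.single a (1 : ℂ) : GA n).coeff g := by
  classical
  rw [MonoidAlgebra.coeff_single, Finsupp.single_apply]
  split_ifs
  · exact zero_le_one
  · exact le_rfl

theorem PP_J {n : ℕ} (k : Fin n) (x : Pt n) (hx : x.1 < k) :
    PP (J k) (Equiv.swap x (k, false)) := by
  unfold J
  refine PP.sum (fun i _ g' => single_nonneg' _ _) (i := x) (by simp [hx]) ?_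
  simp

theorem PP_one {n : ℕ} : PP (1 : GA n) 1 := by
  rw [MonoidAlgebra.one_def]
  refine ⟨fun g' => single_nonneg' _ _, ?_⟩
  simp

theorem J_nonneg {n : ℕ} (k : Fin n) : ∀ g, 0 ≤ (J k).coeff g := by
  intro g
  unfold J
  rw [MonoidAlgebra.coeff_sum, Finsupp.finsetSum_apply]
  exact Finset.sum_nonneg fun i _ => single_nonneg' _ _

theorem J_pow_nonneg {n : ℕ} (k : Fin n) (m : ℕ) : ∀ g, 0 ≤ (J k ^ m).coeff g := by
  induction m with
  | zero =>
    rw [pow_zero]
    exact PP_one.1
  | succ m ih =>
    rw [pow_succ]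
    exact nonneg_mul ih (J_nonneg k)

theorem P_pos {n : ℕ} : PP (P n) 1 := by
  classical
  unfold P
  refine PP.sum (fun i _ g' => single_nonneg' _ _) (i := 1) (by simp [(hyp n).one_mem]) ?_
  simp

theorem cycle_pos {n : ℕ} (m : ℕ) : ∀ c : Equiv.Perm (Fin n), c.IsCycle →
    c.support.card = m + 1 → ∀ k ∈ c.support, (∀ x ∈ c.support, x ≤ k) →
      PP (J k ^ m) (iota c) := by
  induction m with
  | zero =>
    intro c hc hcard
    have := hc.two_le_card_support
    omega
  | succ m ih =>
    intro c hc hcard k hk hmax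
    have hkk : c (c⁻¹ k) = k := by simp
    set x := c⁻¹ k with hx
    have hxs : x ∈ c.support := by
      rw [← Equiv.Perm.apply_mem_support, hkk]; exact hk
    have hxk : x ≠ k := by
      intro h
      rw [h] at hkk
      exact (Equiv.Perm.mem_support.1 hk) hkk
    have hlt : x < k := lt_of_le_of_ne (hmax x hxs) hxk
    have hcx : c x ≠ x := by rw [hkk]; exact Ne.symm hxk
    by_cases hcc : c (c x) = x
    · have h1 := hc.eq_swap_of_apply_apply_eq_self hcx hcc
      rw [hkk] at h1
      have h2 : c.support.card = 2 := by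
        rw [h1]
        exact Equiv.Perm.card_support_swap hxk
      have hm : m = 0 := by omega
      rw [hm, zero_add, pow_one, h1, iota_swap]
      exact PP_J k (x, false) hlt
    · have h1 := hc.swap_mul hcx hcc
      have h2 := Equiv.Perm.support_swap_mul_eq c x hcc
      have h3 : (Equiv.swap x (c x) * c).support.card = m + 1 := by
        rw [h2, Finset.card_sdiff_of_subset (Finset.singleton_subset_iff.2 hxs), hcard,
          Finset.card_singleton]
        rfl
      have h4 := ih _ h1 h3 k (by
        rw [h2, Finset.mem_sdiff, Finset.mem_singleton]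
        exact ⟨hk, Ne.symm hxk⟩) (fun y hy => by
        rw [h2, Finset.mem_sdiff] at hy
        exact hmax y hy.1)
      have h5 : iota c = Equiv.swap (x, false) (k, false) * iota (Equiv.swap x (c x) * c) := by
        rw [hkk, ← iota_swap, ← iota_mul, ← mul_assoc, Equiv.swap_mul_self, one_mul]
      rw [h5, pow_succ']
      exact (PP_J k (x, false) hlt).mul h4

theorem pos {n : ℕ} (π : Equiv.Perm (Fin n)) : PP (evalJ (pf n π.cycleType)) (iota π) := by
  induction π using Equiv.Perm.cycle_induction_on with
  | base_one =>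
    rw [Equiv.Perm.cycleType_one, pf, Multiset.map_zero, Multiset.prod_zero, map_one, iota_one]
    exact PP_one
  | base_cycles c hc =>
    rw [hc.cycleType, pf, Multiset.map_singleton, Multiset.prod_singleton, evalJ_psum]
    obtain ⟨k, hk, hmax⟩ := c.support.exists_max_image id hc.nonempty_support
    have h2 := hc.two_le_card_support
    obtain ⟨m, hm⟩ : ∃ m, c.support.card = m + 1 := ⟨c.support.card - 1, by omega⟩
    have h3 := cycle_pos m c hc hm k hk hmax
    rw [hm, Nat.add_sub_cancel]
    exact PP.sum (fun i _ => J_pow_nonneg i m) (Finset.mem_univ k) h3.2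
  | induction_disjoint σ τ hd _ h1 h2 =>
    rw [hd.cycleType_mul, pf, Multiset.map_add, Multiset.prod_add, map_mul, iota_mul]
    exact h1.mul h2

theorem diagonal {n : ℕ} (π : Equiv.Perm (Fin n)) :
    (evalJ (pf n π.cycleType) * P n).coeff (iota π) ≠ 0 := by
  have := ((pos π).mul (P_pos (n := n))).2
  rwa [mul_one] at this

/-- The set of elements `F(J_1, J_3, ...) P_n` with `F` symmetric. -/
def img (n : ℕ) : Submodule ℂ (GA n) where
  carrier := {x | ∃ F : MvPolynomial (Fin n) ℂ, F.IsSymmetric ∧ evalJ F * P n = x}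
  zero_mem' := ⟨0, MvPolynomial.IsSymmetric.zero, by rw [map_zero, zero_mul]⟩
  add_mem' := by
    rintro x y ⟨F, hF, rfl⟩ ⟨G, hG, rfl⟩
    exact ⟨F + G, hF.add hG, by rw [map_add, add_mul]⟩
  smul_mem' := by
    rintro c x ⟨F, hF, rfl⟩
    exact ⟨c • F, hF.smul c, by rw [map_smul, smul_mul_assoc]⟩

theorem hecke_le {n : ℕ} (M : Submodule ℂ (GA n))
    (hM : ∀ π : Equiv.Perm (Fin n), evalJ (pf n π.cycleType) * P n ∈ M) (K : ℕ) : ∀ w ∈ hecke n,
    (∀ π : Equiv.Perm (Fin n), K ≤ key π → w.coeff (iota π) = 0) → w ∈ M := by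
  classical
  induction K with
  | zero =>
    intro w hw h
    have : w = 0 := by
      apply MonoidAlgebra.ext
      apply Finsupp.ext
      intro σ
      obtain ⟨π, a, ha, b, hb, hab⟩ := exists_rep σ
      have h1 := hw σ a ha b hb
      rw [← h1, hab, h π (Nat.zero_le _)]
      rfl
    rw [this]
    exact M.zero_mem
  | succ K ih =>
    intro w hw h
    set types := (Finset.univ.filter (fun π : Equiv.Perm (Fin n) => key π = K)).image
      (fun π => π.cycleType) with htypes
    have hrep : ∀ t ∈ types, ∃ π : Equiv.Perm (Fin n), key π = K ∧ π.cycleType = t := by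
      intro t ht
      rw [htypes, Finset.mem_image] at ht
      obtain ⟨π, h1, h2⟩ := ht
      simp only [Finset.mem_filter, Finset.mem_univ, true_and] at h1
      exact ⟨π, h1, h2⟩
    choose! rep hrep1 hrep2 using hrep
    set a : Multiset ℕ → GA n := fun t => evalJ (pf n t) * P n with ha
    have hakey : ∀ t ∈ types, a t ∈ M := fun t ht => by
      rw [← hrep2 t ht]
      exact hM _
    have hahecke : ∀ t, a t ∈ hecke n := fun t => symm_good (pf_symm n t)
    set u : GA n := ∑ t ∈ types, (w.coeff (iota (rep t)) / (a t).coeff (iota (rep t))) • a t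
      with hu
    have hu1 : u ∈ M := Submodule.sum_mem _ fun t ht => Submodule.smul_mem _ _ (hakey t ht)
    have hu2 : u ∈ hecke n := Submodule.sum_mem _ fun t _ => Submodule.smul_mem _ _ (hahecke t)
    have hw' : w - u ∈ M := by
      apply ih
      · exact Submodule.sub_mem _ hw hu2
      · intro π hπ
        rw [MonoidAlgebra.coeff_sub, Finsupp.sub_apply, sub_eq_zero, hu, MonoidAlgebra.coeff_sum,
          Finsupp.finsetSum_apply]
        have hterm : ∀ t ∈ types, t ≠ π.cycleType →
            ((w.coeff (iota (rep t)) / (a t).coeff (iota (rep t))) • a t).coeff (iota π) = 0 := by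
          intro t ht hne
          rw [MonoidAlgebra.coeff_smul, Finsupp.smul_apply, smul_eq_mul]
          have : (a t).coeff (iota π) = 0 := by
            by_contra hcon
            have h1 : (evalJ (pf n (rep t).cycleType) * P n).coeff (iota π) ≠ 0 := by
              rw [hrep2 t ht]; exact hcon
            rcases triangular π (rep t) h1 with h2 | h2
            · rw [hrep1 t ht] at h2
              omega
            · apply hne
              rw [h2, hrep2 t ht]
          rw [this, mul_zero]
        by_cases hmem : π.cycleType ∈ types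
        · rw [Finset.sum_eq_single π.cycleType (fun t ht hne => hterm t ht hne)
            (fun hh => absurd hmem hh)]
          have e1 : w.coeff (iota (rep π.cycleType)) = w.coeff (iota π) :=
            coeff_cycleType hw (hrep2 _ hmem)
          have e2 : (a π.cycleType).coeff (iota (rep π.cycleType))
              = (a π.cycleType).coeff (iota π) := coeff_cycleType (hahecke _) (hrep2 _ hmem)
          rw [MonoidAlgebra.coeff_smul, Finsupp.smul_apply, smul_eq_mul, e1, e2]
          have hne : (a π.cycleType).coeff (iota π) ≠ 0 := diagonal π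
          field_simp
        · have hkey : K + 1 ≤ key π := by
            rcases Nat.eq_or_lt_of_le hπ with h1 | h1
            · exfalso
              apply hmem
              rw [htypes, Finset.mem_image]
              exact ⟨π, by simp [h1], rfl⟩
            · exact h1
          rw [h π hkey, Finset.sum_eq_zero]
          intro t ht
          apply hterm t ht
          rintro rfl
          exact hmem ht
    have : w = (w - u) + u := by abel
    rw [this]
    exact M.add_mem hw' hu1

theorem hecke_le' {n : ℕ} (M : Submodule ℂ (GA n))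
    (hM : ∀ π : Equiv.Perm (Fin n), evalJ (pf n π.cycleType) * P n ∈ M) : hecke n ≤ M := by
  intro w hw
  refine hecke_le M hM (Finset.univ.sup (fun π : Equiv.Perm (Fin n) => key π) + 1) w hw ?_
  intro π hπ
  exfalso
  have := Finset.le_sup (f := fun π : Equiv.Perm (Fin n) => key π) (Finset.mem_univ π)
  omega

/-- The main theorem. -/
theorem img_eq_hecke (n : ℕ) : img n = hecke n := by
  apply le_antisymm
  · rintro x ⟨F, hF, rfl⟩
    exact symm_good hF
  · exact hecke_le' _ fun π => ⟨pf n _, pf_symm n _, rfl⟩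

/-- The elements `F(J_1, J_3, ...) P_n` with `F` a polynomial in the power sums
`p_1, p_2, p_3, ...`. -/
noncomputable def imgp (n : ℕ) : Submodule ℂ (GA n) :=
  LinearMap.range ((LinearMap.mulRight ℂ (P n)).comp
    ((evalJ (n := n)).comp (MvPolynomial.aeval
      (fun k : ℕ => MvPolynomial.psum (Fin n) ℂ (k + 1)))).toLinearMap)

theorem mem_imgp {n : ℕ} (x : GA n) : x ∈ imgp n ↔ ∃ F : MvPolynomial ℕ ℂ,
    evalJ (MvPolynomial.aeval (fun k : ℕ => MvPolynomial.psum (Fin n) ℂ (k + 1)) F) * P n = x :=
  Iff.rfl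

theorem imgp_eq_hecke (n : ℕ) : imgp n = hecke n := by
  apply le_antisymm
  · intro x hx
    obtain ⟨F, rfl⟩ := (mem_imgp x).1 hx
    apply symm_good
    induction F using MvPolynomial.induction_on with
    | C a =>
      rw [MvPolynomial.aeval_C]
      exact MvPolynomial.IsSymmetric.C a
    | add p q hp hq =>
      rw [map_add]
      exact (hp ⟨p, rfl⟩).add (hq ⟨q, rfl⟩)
    | mul_X p i hp =>
      rw [map_mul, MvPolynomial.aeval_X]
      exact (hp ⟨p, rfl⟩).mul (MvPolynomial.psum_isSymmetric _ _ _)
  · apply hecke_le'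
    intro π
    rw [mem_imgp]
    have key : ∀ s : Multiset ℕ, (∀ l ∈ s, 2 ≤ l) → ∃ F : MvPolynomial ℕ ℂ,
        MvPolynomial.aeval (fun k : ℕ => MvPolynomial.psum (Fin n) ℂ (k + 1)) F = pf n s := by
      intro s
      induction s using Multiset.induction_on with
      | empty =>
        intro _
        exact ⟨1, by rw [map_one, pf, Multiset.map_zero, Multiset.prod_zero]⟩
      | cons a s ih =>
        intro h
        obtain ⟨F, hF⟩ := ih fun l hl => h l (Multiset.mem_cons_of_mem hl)
        have ha := h a (Multiset.mem_cons_self a s)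
        refine ⟨MvPolynomial.X (a - 2) * F, ?_⟩
        rw [map_mul, hF, MvPolynomial.aeval_X, show a - 2 + 1 = a - 1 by omega, pf, pf,
          Multiset.map_cons, Multiset.prod_cons]
    obtain ⟨F, hF⟩ := key π.cycleType fun l hl => Equiv.Perm.two_le_of_mem_cycleType hl
    exact ⟨F, by rw [hF]⟩

end Pool.Agent.Helper156.OddJM
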