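import Pool.Agent.Helper156.OddJM.Coloring

/-!
# Representatives of the double cosets
-/

set_option autoImplicit false

open scoped BigOperators IsMulCommutative

namespace Pool.Agent.Helper156.OddJM

/-- The permutation acting on the odd points only. -/
def iota {n : ℕ} (π : Equiv.Perm (Fin n)) : Equiv.Perm (Pt n) where
  toFun x := if x.2 = true then x else (π x.1, false)
  invFun x := if x.2 = true then x else (π.symm x.1, false)
  left_inv := by
    rintro ⟨a, b⟩
    cases b <;> simp
  right_inv := by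
    rintro ⟨a, b⟩
    cases b <;> simp

@[simp] theorem iota_false {n : ℕ} (π : Equiv.Perm (Fin n)) (i : Fin n) :
    iota π (i, false) = (π i, false) := by simp [iota]

@[simp] theorem iota_true {n : ℕ} (π : Equiv.Perm (Fin n)) (i : Fin n) :
    iota π (i, true) = (i, true) := by simp [iota]

theorem iota_one {n : ℕ} : iota (1 : Equiv.Perm (Fin n)) = 1 := by
  apply Equiv.ext
  rintro ⟨a, b⟩
  cases b <;> simp

theorem iota_mul {n : ℕ} (π ρ : Equiv.Perm (Fin n)) : iota (π * ρ) = iota π * iota ρ := by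
  apply Equiv.ext
  rintro ⟨a, b⟩
  cases b <;> simp [Equiv.Perm.mul_apply]

theorem iota_swap {n : ℕ} (a b : Fin n) :
    iota (Equiv.swap a b) = Equiv.swap (a, false) (b, false) := by
  apply Equiv.ext
  rintro ⟨c, d⟩
  cases d
  · rw [iota_false]
    by_cases h1 : c = a
    · rw [h1, Equiv.swap_apply_left, Equiv.swap_apply_left]
    by_cases h2 : c = b
    · rw [h2, Equiv.swap_apply_right, Equiv.swap_apply_right]
    rw [Equiv.swap_apply_of_ne_of_ne h1 h2, Equiv.swap_apply_of_ne_of_ne]
    · intro h; exact h1 (congrArg Prod.fst h)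
    · intro h; exact h2 (congrArg Prod.fst h)
  · rw [iota_true, Equiv.swap_apply_of_ne_of_ne]
    · intro h; simpa using congrArg Prod.snd h
    · intro h; simpa using congrArg Prod.snd h

/-- The diagonal action of a permutation of the pairs. -/
def diag {n : ℕ} (κ : Equiv.Perm (Fin n)) : Equiv.Perm (Pt n) :=
  Equiv.prodCongr κ (Equiv.refl _)

theorem diag_mem {n : ℕ} (κ : Equiv.Perm (Fin n)) : diag κ ∈ hyp n := by
  rw [mem_hyp]
  intro x
  rfl

theorem diag_conj {n : ℕ} (κ π : Equiv.Perm (Fin n)) :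
    diag κ * iota π * (diag κ)⁻¹ = iota (κ * π * κ⁻¹) := by
  rw [mul_inv_eq_iff_eq_mul]
  apply Equiv.ext
  rintro ⟨a, b⟩
  cases b
  · simp [Equiv.Perm.mul_apply, diag]
  · simp [Equiv.Perm.mul_apply, diag]

theorem coeff_cycleType {n : ℕ} {x : GA n} (hx : x ∈ hecke n) {π ρ : Equiv.Perm (Fin n)}
    (h : π.cycleType = ρ.cycleType) : x.coeff (iota π) = x.coeff (iota ρ) := by
  have hc := Equiv.Perm.isConj_iff_cycleType_eq.2 h
  rw [isConj_iff] at hc
  obtain ⟨κ, hκ⟩ := hc
  rw [← hκ, ← diag_conj]
  exact (hx (iota π) (diag κ) (diag_mem κ) (diag κ)⁻¹ ((hyp n).inv_mem (diag_mem κ))).symm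

/-! ### Every double coset contains some `iota π` -/

theorem tau_zpow {n : ℕ} (m : Equiv.Perm (Pt n)) (hm : m * m = 1) (i : ℤ) :
    tau n * (tau n * m) ^ i = (tau n * m) ^ (-i) * tau n := by
  have h1 : (tau n) * (tau n * m) * (tau n)⁻¹ = (tau n * m)⁻¹ := by
    have htt : (tau n)⁻¹ = tau n := by
      rw [inv_eq_iff_mul_eq_one]; exact tau_tau
    have hmm : m⁻¹ = m := by
      rw [inv_eq_iff_mul_eq_one]; exact hm
    rw [mul_inv_rev, htt, hmm, ← mul_assoc, tau_tau, one_mul]
  have h2 : (tau n) * (tau n * m) ^ i * (tau n)⁻¹ = (tau n * m) ^ (-i) := by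
    rw [← conj_zpow, h1, inv_zpow, zpow_neg]
  rw [← h2]
  group

theorem not_sameCycle {n : ℕ} (m : Equiv.Perm (Pt n)) (hm : m * m = 1) (hne : ∀ x, m x ≠ x)
    (x : Pt n) : ¬ (tau n * m).SameCycle x (tau n x) := by
  rintro ⟨k, hk⟩
  have htne : ∀ z, tau n z ≠ z := by
    intro z h
    rw [tau_apply] at h
    have := congrArg Prod.snd h
    simp at this
  rcases Int.even_or_odd' k with ⟨j, hj | hj⟩
  · have h1 : ((tau n * m) ^ (2 * j)) x = (tau n) x := by rw [← hj]; exact hk
    have h2 : ((tau n * m) ^ (-j) * (tau n * m) ^ (2 * j)) x = ((tau n * m) ^ (-j) * tau n) x := by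
      rw [Equiv.Perm.mul_apply, Equiv.Perm.mul_apply, h1]
    rw [← tau_zpow m hm, ← zpow_add, show -j + 2 * j = j by ring, Equiv.Perm.mul_apply] at h2
    exact htne _ h2.symm
  · have h1 : ((tau n * m) ^ (2 * j + 1)) x = (tau n) x := by rw [← hj]; exact hk
    have h2 : ((tau n * m) ^ (-j) * (tau n * m) ^ (2 * j + 1)) x
        = ((tau n * m) ^ (-j) * tau n) x := by
      rw [Equiv.Perm.mul_apply, Equiv.Perm.mul_apply, h1]
    rw [← tau_zpow m hm, ← zpow_add, show -j + (2 * j + 1) = 1 + j by ring, zpow_add, zpow_one,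
      Equiv.Perm.mul_apply, Equiv.Perm.mul_apply, Equiv.Perm.mul_apply] at h2
    exact hne _ ((tau n).injective h2)

theorem dec_aux {α : Type*} [LinearOrder α] {a b : α} (h : a ≠ b) :
    decide (b < a) = !decide (a < b) := by
  rcases lt_or_gt_of_ne h with h | h
  · simp [h, not_lt.2 h.le]
  · simp [h, not_lt.2 h.le]

theorem exists_colour {n : ℕ} (m : Equiv.Perm (Pt n)) (hm : m * m = 1) (hne : ∀ x, m x ≠ x) :
    ∃ c : Pt n → Bool, (∀ x, c (tau n x) = !c x) ∧ ∀ x, c (m x) = !c x := by
  classical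
  let s := Equiv.Perm.SameCycle.setoid (tau n * m)
  let rep : Pt n → Pt n := fun x => (Quotient.mk s x).out
  have hrep : ∀ x, (tau n * m).SameCycle (rep x) x := fun x => Quotient.mk_out (s := s) x
  have hrepeq : ∀ x y, (tau n * m).SameCycle x y → rep x = rep y := by
    intro x y h
    have : Quotient.mk s x = Quotient.mk s y := Quotient.sound h
    show (Quotient.mk s x).out = (Quotient.mk s y).out
    rw [this]
  let e := Fintype.equivFin (Pt n)
  have hneq : ∀ x, e (rep x) ≠ e (rep (tau n x)) := by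
    intro x h
    have h1 := e.injective h
    have h2 := hrep x
    rw [h1] at h2
    exact not_sameCycle m hm hne x (h2.symm.trans (hrep (tau n x)))
  have htt : ∀ x, tau n (tau n x) = x := by
    intro x
    simp
  have hmm : ∀ x, m (m x) = x := by
    intro x
    rw [← Equiv.Perm.mul_apply, hm]; rfl
  refine ⟨fun x => decide (e (rep x) < e (rep (tau n x))), ?_, ?_⟩
  · intro x
    show decide (e (rep (tau n x)) < e (rep (tau n (tau n x)))) = !decide (e (rep x) < e (rep (tau n x)))
    rw [htt]
    exact dec_aux (hneq x)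
  · intro x
    have h1 : rep (m x) = rep (tau n x) := by
      apply hrepeq
      refine ⟨1, ?_⟩
      rw [zpow_one, Equiv.Perm.mul_apply, hmm]
    have h2 : rep (tau n (m x)) = rep x := by
      apply hrepeq
      refine ⟨-1, ?_⟩
      rw [zpow_neg, zpow_one, Equiv.Perm.inv_eq_iff_eq, Equiv.Perm.mul_apply]
    show decide (e (rep (m x)) < e (rep (tau n (m x)))) = !decide (e (rep x) < e (rep (tau n x)))
    rw [h1, h2]
    exact dec_aux (hneq x)

theorem colour_colour {n : ℕ} (c : Pt n → Bool) (hc : ∀ x, c (tau n x) = !c x) (i : Fin n)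
    (b : Bool) : c (i, c (i, b)) = b := by
  have h : c (i, true) = !c (i, false) := hc (i, false)
  cases h0 : c (i, false) with
  | false =>
    rw [h0] at h
    cases b with
    | false => rw [h0, h0]
    | true => rw [h]; exact h
  | true =>
    rw [h0] at h
    cases b with
    | false => rw [h0]; exact h
    | true => rw [h]; exact h0

/-- The element of the hyperoctahedral group attached to a colouring. -/
def flip {n : ℕ} (c : Pt n → Bool) (hc : ∀ x, c (tau n x) = !c x) : Equiv.Perm (Pt n) where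
  toFun x := (x.1, c x)
  invFun x := (x.1, c x)
  left_inv := by
    rintro ⟨i, b⟩
    exact Prod.ext rfl (colour_colour c hc i b)
  right_inv := by
    rintro ⟨i, b⟩
    exact Prod.ext rfl (colour_colour c hc i b)

theorem flip_mem {n : ℕ} (c : Pt n → Bool) (hc : ∀ x, c (tau n x) = !c x) :
    flip c hc ∈ hyp n := by
  rw [mem_hyp]
  intro x
  show ((tau n x).1, c (tau n x)) = (x.1, !c x)
  rw [hc]
  rfl

theorem exists_rep {n : ℕ} (σ : Equiv.Perm (Pt n)) :
    ∃ π : Equiv.Perm (Fin n), ∃ h ∈ hyp n, ∃ k ∈ hyp n, h * σ * k = iota π := by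
  have hm : mat σ * mat σ = 1 := by
    apply Equiv.ext
    intro z
    rw [Equiv.Perm.mul_apply, mat_mat]; rfl
  obtain ⟨c, hc1, hc2⟩ := exists_colour (mat σ) hm (mat_ne σ)
  set h := flip c hc1 with hh
  have hhm : h ∈ hyp n := flip_mem c hc1
  have hm2 : ∀ z, mat (h * σ) z = h (mat σ (h⁻¹ z)) := by
    intro z
    unfold mat
    simp [Equiv.Perm.mul_apply, mul_inv_rev]
  have hsnd : ∀ z, (mat (h * σ) z).2 = !z.2 := by
    intro z
    rw [hm2]
    obtain ⟨w, rfl⟩ : ∃ w, z = h w := ⟨h⁻¹ z, by simp⟩
    have : h⁻¹ (h w) = w := by simp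
    rw [this]
    show c (mat σ w) = !(c w)
    exact hc2 w
  set M := mat (h * σ) with hM
  have hMM : ∀ z, M (M z) = z := fun z => mat_mat _ z
  let π : Equiv.Perm (Fin n) :=
    { toFun := fun i => (M (i, true)).1
      invFun := fun i => (M (i, false)).1
      left_inv := by
        intro i
        have h1 : M (i, true) = ((M (i, true)).1, false) := by
          refine Prod.ext rfl ?_
          rw [hsnd]; rfl
        show (M ((M (i, true)).1, false)).1 = i
        rw [← h1, hMM]
      right_inv := by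
        intro i
        have h1 : M (i, false) = ((M (i, false)).1, true) := by
          refine Prod.ext rfl ?_
          rw [hsnd]; rfl
        show (M ((M (i, false)).1, true)).1 = i
        rw [← h1, hMM] }
  have hπ : iota π * tau n = M * iota π := by
    apply Equiv.ext
    rintro ⟨i, b⟩
    cases b
    · rw [Equiv.Perm.mul_apply, Equiv.Perm.mul_apply, iota_false, tau_apply]
      show iota π (i, true) = M (π i, false)
      rw [iota_true]
      have h1 : M (i, true) = (π i, false) := by
        refine Prod.ext rfl ?_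
        rw [hsnd]; rfl
      rw [← h1, hMM]
    · rw [Equiv.Perm.mul_apply, Equiv.Perm.mul_apply, iota_true, tau_apply]
      show iota π (i, false) = M (i, true)
      rw [iota_false]
      refine Prod.ext rfl ?_
      rw [hsnd]; rfl
  refine ⟨π, h, hhm, (h * σ)⁻¹ * iota π, ?_, by group⟩
  rw [mem_hyp]
  intro x
  have h1 : (h * σ)⁻¹ * iota π * tau n = tau n * ((h * σ)⁻¹ * iota π) := by
    rw [mul_assoc, hπ, hM]
    unfold mat
    group
  have := congrArg (fun f : Equiv.Perm (Pt n) => f x) h1
  exact this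

end Pool.Agent.Helper156.OddJM
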