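import Pool.Agent.Helper156.OddJM.Invariance
import Pool.Agent.Helper156.OddJM.Reps
import Pool.Agent.Helper156.OddJM.Core

/-!
# Triangularity
-/

set_option autoImplicit false

open scoped BigOperators IsMulCommutative

namespace Pool.Agent.Helper156.OddJM

theorem coeff_J_mul {n : ℕ} (k : Fin n) (y : GA n) (σ : Equiv.Perm (Pt n)) :
    (J k * y).coeff σ = ∑ x ∈ Finset.univ.filter (fun x : Pt n => x.1 < k),
      y.coeff (Equiv.swap x (k, false) * σ) := by
  unfold J
  rw [Finset.sum_mul, MonoidAlgebra.coeff_sum, Finsupp.finsetSum_apply]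
  refine Finset.sum_congr rfl fun x _ => ?_
  rw [MonoidAlgebra.coeff_single_mul_apply, one_mul, Equiv.swap_inv]

theorem inv_swap {n : ℕ} {k : Fin n} {x : Pt n} {σ : Equiv.Perm (Pt n)} {f : Fin n → ℚ}
    (h : Inv f (Equiv.swap x (k, false) * σ)) (hx : f x.1 = f k) : Inv f σ := by
  have key : ∀ z : Pt n, f (Equiv.swap x (k, false) z).1 = f z.1 := by
    intro z
    by_cases h1 : z = x
    · rw [h1, Equiv.swap_apply_left, hx]
    by_cases h2 : z = (k, false)
    · rw [h2, Equiv.swap_apply_right, hx]
    rw [Equiv.swap_apply_of_ne_of_ne h1 h2]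
  intro y
  have := h y
  rw [Equiv.Perm.mul_apply, Equiv.Perm.mul_apply, key, key] at this
  exact this

theorem pow_step {n : ℕ} (k : Fin n) (y : GA n) (m : ℕ) :
    ∀ σ : Equiv.Perm (Pt n), (J k ^ m * y).coeff σ ≠ 0 →
      ∃ σ0 : Equiv.Perm (Pt n), y.coeff σ0 ≠ 0 ∧ ∃ es : List (Fin n), es.length = m ∧
        ∀ f : Fin n → ℚ, Inv f σ0 → (∀ x ∈ es, f x = f k) → Inv f σ := by
  induction m with
  | zero =>
    intro σ h
    refine ⟨σ, by simpa using h, [], rfl, fun f hf _ => hf⟩
  | succ m ih =>
    intro σ h
    rw [pow_succ', mul_assoc, coeff_J_mul] at h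
    obtain ⟨x, _, hx⟩ := Finset.exists_ne_zero_of_sum_ne_zero h
    obtain ⟨σ0, h0, es, hes, hf⟩ := ih _ hx
    refine ⟨σ0, h0, x.1 :: es, by simp [hes], fun f h1 h2 => ?_⟩
    apply inv_swap (hf f h1 fun z hz => h2 z (List.mem_cons_of_mem _ hz))
    exact h2 x.1 List.mem_cons_self

theorem evalJ_psum {n : ℕ} (m : ℕ) : evalJ (MvPolynomial.psum (Fin n) ℂ m) = ∑ i, J i ^ m := by
  unfold MvPolynomial.psum
  rw [map_sum]
  refine Finset.sum_congr rfl fun i _ => ?_
  rw [map_pow, evalJ_X]

theorem P_coeff {n : ℕ} (σ : Equiv.Perm (Pt n)) (h : (P n).coeff σ ≠ 0) : σ ∈ hyp n := by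
  classical
  by_contra hcon
  apply h
  unfold P
  rw [MonoidAlgebra.coeff_sum, Finsupp.finsetSum_apply]
  apply Finset.sum_eq_zero
  intro b hb
  simp only [Finset.mem_filter, Finset.mem_univ, true_and] at hb
  have : b ≠ σ := by
    rintro rfl
    exact hcon hb
  simp [this]

theorem extract {n : ℕ} (L : List ℕ) : ∀ σ : Equiv.Perm (Pt n),
    (evalJ ((L.map (fun l => MvPolynomial.psum (Fin n) ℂ (l - 1))).prod) * P n).coeff σ ≠ 0 →
      ∃ gs : List (Fin n × List (Fin n)),
        gs.map (fun g => g.2.length) = L.map (fun l => l - 1) ∧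
        ∀ f : Fin n → ℚ, (∀ g ∈ gs, ∀ x ∈ g.2, f x = f g.1) → Inv f σ := by
  induction L with
  | nil =>
    intro σ h
    refine ⟨[], rfl, fun f _ => ?_⟩
    rw [List.map_nil, List.prod_nil, map_one, one_mul] at h
    have h1 := mem_hyp.1 (P_coeff σ h)
    intro y
    rw [h1 y]
    simp
  | cons l L ih =>
    intro σ h
    rw [List.map_cons, List.prod_cons, map_mul, mul_assoc, evalJ_psum, Finset.sum_mul,
      MonoidAlgebra.coeff_sum, Finsupp.finsetSum_apply] at h
    obtain ⟨k, _, hk⟩ := Finset.exists_ne_zero_of_sum_ne_zero h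
    obtain ⟨σ0, h0, es, hes, hf⟩ := pow_step k _ _ σ hk
    obtain ⟨gs, hgs, hgf⟩ := ih σ0 h0
    refine ⟨(k, es) :: gs, ?_, fun f hh => ?_⟩
    · rw [List.map_cons, List.map_cons, hgs]
      simp [hes]
    · apply hf f
      · exact hgf f fun g hg => hh g (List.mem_cons_of_mem _ hg)
      · exact hh (k, es) List.mem_cons_self

theorem inv_iota {n : ℕ} (π : Equiv.Perm (Fin n)) (f : Fin n → ℚ) (h : Inv f (iota π)) (x : Fin n) :
    f (π x) = f x := by
  have := h (x, false)
  simpa using this

/-- Ordering key. -/
def key {n : ℕ} (π : Equiv.Perm (Fin n)) : ℕ :=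
  (π.support.card - π.cycleType.card) * (n + 1) + π.cycleType.card

/-- The symmetric function attached to a multiset. -/
noncomputable def pf (n : ℕ) (s : Multiset ℕ) : MvPolynomial (Fin n) ℂ :=
  (s.map (fun l => MvPolynomial.psum (Fin n) ℂ (l - 1))).prod

theorem pf_symm (n : ℕ) (s : Multiset ℕ) : (pf n s).IsSymmetric := by
  unfold pf
  induction s using Multiset.induction_on with
  | empty =>
    rw [Multiset.map_zero, Multiset.prod_zero]
    exact MvPolynomial.IsSymmetric.one
  | cons a s ih =>
    rw [Multiset.map_cons, Multiset.prod_cons]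
    exact (MvPolynomial.psum_isSymmetric _ _ _).mul ih

theorem card_cycleType_le {n : ℕ} (π : Equiv.Perm (Fin n)) :
    2 * π.cycleType.card ≤ π.support.card := by
  rw [← Equiv.Perm.sum_cycleType, mul_comm]
  have := Multiset.card_nsmul_le_sum (s := π.cycleType) (a := 2)
    (fun x hx => Equiv.Perm.two_le_of_mem_cycleType hx)
  simpa using this

theorem triangular {n : ℕ} (π ρ : Equiv.Perm (Fin n))
    (h : (evalJ (pf n ρ.cycleType) * P n).coeff (iota π) ≠ 0) :
    key π < key ρ ∨ π.cycleType = ρ.cycleType := by
  obtain ⟨L, hL⟩ : ∃ L : List ℕ, (L : Multiset ℕ) = ρ.cycleType := ⟨_, Multiset.coe_toList _⟩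
  unfold pf at h
  rw [← hL, Multiset.map_coe, Multiset.prod_coe] at h
  obtain ⟨gs, hgs, hf⟩ := extract L _ h
  have hcore := core π (s := gs.length) (fun i => (gs.get i).1) (fun i => (gs.get i).2.length)
    (fun i j => (gs.get i).2.get j) (by
      intro f hh x
      apply inv_iota
      apply hf
      intro g hg x hx
      obtain ⟨i, rfl⟩ := List.get_of_mem hg
      obtain ⟨j, rfl⟩ := List.get_of_mem hx
      exact hh i j)
  have hlen : gs.length = ρ.cycleType.card := by
    have := congrArg List.length hgs
    rw [List.length_map, List.length_map] at this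
    rw [this, ← hL, Multiset.coe_card]
  have hm : ∀ F : (Fin n × List (Fin n)) → ℕ, List.ofFn (fun i => F (gs.get i)) = gs.map F := by
    intro F
    conv_rhs => rw [← List.ofFn_get gs, List.map_ofFn]
    rfl
  have hsum : ∑ i : Fin gs.length, (gs.get i).2.length
      = ρ.support.card - ρ.cycleType.card := by
    have h1 : ∑ i : Fin gs.length, (gs.get i).2.length = (gs.map (fun g => g.2.length)).sum := by
      rw [← List.sum_ofFn, ← hm]
    rw [h1, hgs, ← Equiv.Perm.sum_cycleType, ← hL, Multiset.sum_coe, Multiset.coe_card]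
    have hpos : ∀ l ∈ L, 1 ≤ l := by
      intro l hl
      have : l ∈ ρ.cycleType := by rw [← hL]; exact hl
      have := Equiv.Perm.two_le_of_mem_cycleType this
      omega
    clear hL h hgs
    induction L with
    | nil => simp
    | cons a L ih =>
      have h2 := ih (fun l hl => hpos l (List.mem_cons_of_mem _ hl))
      have h3 := hpos a List.mem_cons_self
      have h4 : L.length ≤ L.sum := by
        clear ih h2 h3
        induction L with
        | nil => simp
        | cons b L ih =>
          have h5 := ih (fun l hl => by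
            apply hpos l
            rcases List.mem_cons.1 hl with h | h
            · rw [h]; exact List.mem_cons_self
            · exact List.mem_cons_of_mem _ (List.mem_cons_of_mem _ h))
          have h6 := hpos b (List.mem_cons_of_mem _ List.mem_cons_self)
          rw [List.length_cons, List.sum_cons]
          omega
      rw [List.map_cons, List.sum_cons, h2, List.sum_cons, List.length_cons]
      omega
  rw [hsum] at hcore
  have hmap : (Finset.univ.val.map (fun i : Fin gs.length => (gs.get i).2.length + 1))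
      = ρ.cycleType := by
    have h1 : (Finset.univ.val.map (fun i : Fin gs.length => (gs.get i).2.length + 1))
        = ((gs.map (fun g => g.2.length + 1) : List ℕ) : Multiset ℕ) := by
      rw [Fin.univ_val_map, ← hm]
    rw [h1, ← hL]
    congr 1
    have h2 : gs.map (fun g => g.2.length + 1) = (gs.map (fun g => g.2.length)).map (· + 1) := by
      rw [List.map_map]; rfl
    rw [h2, hgs, List.map_map]
    conv_rhs => rw [← List.map_id L]
    apply List.map_congr_left
    intro l hl
    have h3 : l ∈ ρ.cycleType := by rw [← hL]; exact hl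
    have := Equiv.Perm.two_le_of_mem_cycleType h3
    simp only [Function.comp_apply, id_eq]
    omega
  rw [hmap] at hcore
  obtain ⟨hc1, hc2⟩ := hcore
  by_cases heq : π.cycleType = ρ.cycleType
  · exact Or.inr heq
  left
  have hb1 := card_cycleType_le π
  have hb2 := card_cycleType_le ρ
  have hb3 : π.support.card ≤ n := by
    have := Finset.card_le_univ π.support
    rwa [Fintype.card_fin] at this
  unfold key
  rcases lt_or_ge (π.support.card - π.cycleType.card) (ρ.support.card - ρ.cycleType.card)
    with hlt | hge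
  · calc (π.support.card - π.cycleType.card) * (n + 1) + π.cycleType.card
        < (π.support.card - π.cycleType.card) * (n + 1) + (n + 1) := by omega
      _ = (π.support.card - π.cycleType.card + 1) * (n + 1) := by ring
      _ ≤ (ρ.support.card - ρ.cycleType.card) * (n + 1) := Nat.mul_le_mul_right _ hlt
      _ ≤ _ := Nat.le_add_right _ _
  · have hr : π.cycleType.card < ρ.cycleType.card := by
      by_contra hcon
      exact heq (hc2 (by omega) (by omega))
    have hd : π.support.card - π.cycleType.card = ρ.support.card - ρ.cycleType.card := by omega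
    rw [hd]
    omega

end Pool.Agent.Helper156.OddJM
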